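import Pool.Agent.Run7.h971.SC.Span2

/-!
# A bound for the rank of a pure subgroup on which the form has rank one modulo a prime number
-/

set_option autoImplicit false

namespace Pool.Agent.Run7.h971.SC

open Finset Module Pool.Agent.Y95.Q Pool.Agent.Y95.Q.H4

variable {X : CubicFourfold} {H : H4 X}

/-- reduction modulo `p` -/
def redp (p : ℕ) (v : Fin 23 → ℤ) : Fin 23 → ZMod p := fun i => (v i : ZMod p)

theorem redp_smul (p : ℕ) (n : ℤ) (v : Fin 23 → ℤ) :
    redp p (n • v) = (n : ZMod p) • redp p v := by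
  ext i
  simp [redp]

theorem redp_add (p : ℕ) (v w : Fin 23 → ℤ) : redp p (v + w) = redp p v + redp p w := by
  ext i
  simp [redp]

theorem redp_sum (p : ℕ) {ι : Type*} (s : Finset ι) (f : ι → Fin 23 → ℤ) :
    redp p (∑ i ∈ s, f i) = ∑ i ∈ s, redp p (f i) := by
  classical
  induction s using Finset.induction_on with
  | empty =>
    ext i
    simp [redp]
  | insert a s ha ih => rw [sum_insert ha, sum_insert ha, redp_add, ih]

theorem indep_of_pure {p : ℕ} [Fact p.Prime] {M : Submodule ℤ (Fin 23 → ℤ)}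
    (hpure : ∀ v, (p : ℤ) • v ∈ M → v ∈ M) {r : ℕ} (b : Basis (Fin r) ℤ M) :
    LinearIndependent (ZMod p) fun i => redp p (b i : Fin 23 → ℤ) := by
  classical
  rw [Fintype.linearIndependent_iff]
  intro c hc i
  let x : M := ∑ i, ((c i).val : ℤ) • b i
  have h1 : redp p (x : Fin 23 → ℤ) = 0 := by
    rw [← hc]
    simp only [x, Submodule.coe_sum, Submodule.coe_smul]
    rw [redp_sum]
    refine sum_congr rfl fun i _ => ?_
    rw [redp_smul]
    congr 1
    simp
  obtain ⟨w, hw⟩ : ∃ w : Fin 23 → ℤ, (x : Fin 23 → ℤ) = (p : ℤ) • w := by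
    refine ⟨fun i => (x : Fin 23 → ℤ) i / p, ?_⟩
    ext i
    have h2 : (((x : Fin 23 → ℤ) i : ℤ) : ZMod p) = 0 := congrFun h1 i
    have h3 : (p : ℤ) ∣ (x : Fin 23 → ℤ) i := (ZMod.intCast_zmod_eq_zero_iff_dvd _ p).1 h2
    rw [Pi.smul_apply, smul_eq_mul]
    exact (Int.mul_ediv_cancel' h3).symm
  have hwM : w ∈ M := hpure w (by rw [← hw]; exact x.2)
  let w' : M := ⟨w, hwM⟩
  have h2 : x = (p : ℤ) • w' := Subtype.ext hw
  have h3 : b.repr x i = ((c i).val : ℤ) := by
    simp only [x, map_sum, map_smul, Finsupp.coe_finsetSum, Finset.sum_apply,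
      Finsupp.smul_apply, Basis.repr_self, smul_eq_mul, Finsupp.single_apply]
    rw [Finset.sum_eq_single i]
    · simp
    · intro j _ hj
      simp [hj]
    · simp
  have h4 : b.repr x i = p * b.repr w' i := by
    rw [h2, map_smul, Finsupp.smul_apply, smul_eq_mul]
  have h5 : ((c i).val : ℤ) = p * b.repr w' i := h3.symm.trans h4
  have h6 : (((c i).val : ℤ) : ZMod p) = c i := by simp
  rw [← h6, h5]
  push_cast
  rw [ZMod.natCast_self, zero_mul]

/-- the form has rank at most one modulo `p` -/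
theorem rank_bound (hH : H.IsCohomology) {p : ℕ} [Fact p.Prime]
    {M : Submodule ℤ (Fin 23 → ℤ)} (hpure : ∀ v, (p : ℤ) • v ∈ M → v ∈ M)
    (e : Fin 23 → ℤ)
    (hM : ∀ v ∈ M, ∀ w ∈ M, (p : ℤ) ∣ H.ip v w - H.ip v e * H.ip w e) :
    finrank ℤ M ≤ 12 := by
  classical
  set r := finrank ℤ M with hr
  let b := Module.finBasis ℤ M
  let R : Matrix (Fin r) (Fin 23) (ZMod p) := fun k => redp p (b k : Fin 23 → ℤ)
  let Bm : Matrix (Fin 23) (Fin 23) (ZMod p) := H.B.map (Int.castRingHom (ZMod p))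
  have hRi : LinearIndependent (ZMod p) R := indep_of_pure hpure b
  have hR : R.rank = r := by
    have h1 : R.rank = Fintype.card (Fin r) := LinearIndependent.rank_matrix hRi
    rw [h1, Fintype.card_fin]
  have hBdet : IsUnit Bm.det := by
    have h1 : Bm.det = (Int.castRingHom (ZMod p)) H.B.det := by
      rw [RingHom.map_det]
      rfl
    rw [h1]
    exact hH.unimodular.map _
  have hRB : (R * Bm).rank = r := by
    rw [Matrix.rank_mul_eq_left_of_isUnit_det _ _ hBdet, hR]
  have hker : finrank (ZMod p) (LinearMap.ker (R * Bm).mulVecLin) + r = 23 := by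
    have h1 := LinearMap.finrank_range_add_finrank_ker (R * Bm).mulVecLin
    have h2 : finrank (ZMod p) (LinearMap.range (R * Bm).mulVecLin) = r := hRB
    rw [h2, finrank_fin_fun] at h1
    omega
  let φ : (Fin r → ZMod p) →ₗ[ZMod p] ZMod p :=
    ∑ i, (((H.ip (b i : Fin 23 → ℤ) e : ℤ) : ZMod p)) • LinearMap.proj i
  have hφ : ∀ c, φ c = ∑ i, ((H.ip (b i : Fin 23 → ℤ) e : ℤ) : ZMod p) * c i := by
    intro c
    simp [φ, LinearMap.sum_apply]
  have hφker : r ≤ finrank (ZMod p) (LinearMap.ker φ) + 1 := by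
    have h1 := LinearMap.finrank_range_add_finrank_ker φ
    have h2 : finrank (ZMod p) (LinearMap.range φ) ≤ 1 := by
      have := Submodule.finrank_le (LinearMap.range φ)
      rwa [finrank_self] at this
    rw [finrank_fin_fun] at h1
    omega
  -- the map
  have hmem : ∀ c ∈ LinearMap.ker φ, R.transpose.mulVecLin c ∈
      LinearMap.ker (R * Bm).mulVecLin := by
    intro c hc
    rw [LinearMap.mem_ker] at hc ⊢
    rw [Matrix.mulVecLin_apply, Matrix.mulVecLin_apply, Matrix.mulVec_mulVec]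
    ext k
    have hent : ∀ i, (R * Bm * R.transpose) k i =
        ((H.ip (b k : Fin 23 → ℤ) e : ℤ) : ZMod p) * ((H.ip (b i : Fin 23 → ℤ) e : ℤ) : ZMod p)
        := by
      intro i
      have h1 : ((H.ip (b k : Fin 23 → ℤ) (b i : Fin 23 → ℤ) : ℤ) : ZMod p) =
          ((H.ip (b k : Fin 23 → ℤ) e : ℤ) : ZMod p) *
            ((H.ip (b i : Fin 23 → ℤ) e : ℤ) : ZMod p) := by
        rw [← sub_eq_zero, ← Int.cast_mul, ← Int.cast_sub, ZMod.intCast_zmod_eq_zero_iff_dvd]
        exact hM _ (b k).2 _ (b i).2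
      rw [← h1]
      have h2 : (R * Bm * R.transpose) k i = ∑ j, (∑ l, (((b k : Fin 23 → ℤ) l : ℤ) : ZMod p) *
          ((H.B l j : ℤ) : ZMod p)) * (((b i : Fin 23 → ℤ) j : ℤ) : ZMod p) := by
        rw [Matrix.mul_apply]
        refine Finset.sum_congr rfl fun j _ => ?_
        rw [Matrix.mul_apply]
        rfl
      rw [h2]
      simp only [ip, Int.cast_sum, Int.cast_mul, Finset.sum_mul]
      rw [Finset.sum_comm]
    simp only [Matrix.mulVec, dotProduct, hent, Pi.zero_apply]
    have h2 := hφ c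
    rw [hc] at h2
    have h3 : ∑ x, ((H.ip (b k : Fin 23 → ℤ) e : ℤ) : ZMod p) *
        ((H.ip (b x : Fin 23 → ℤ) e : ℤ) : ZMod p) * c x =
        ((H.ip (b k : Fin 23 → ℤ) e : ℤ) : ZMod p) *
          ∑ x, ((H.ip (b x : Fin 23 → ℤ) e : ℤ) : ZMod p) * c x := by
      rw [Finset.mul_sum]
      exact Finset.sum_congr rfl fun x _ => by ring
    rw [h3, ← h2, mul_zero]
  let ψ : LinearMap.ker φ →ₗ[ZMod p] LinearMap.ker (R * Bm).mulVecLin :=
    (R.transpose.mulVecLin.domRestrict (LinearMap.ker φ)).codRestrict _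
      fun c => hmem c.1 c.2
  have hinj0 : Function.Injective R.transpose.mulVecLin := by
    have h1 := Matrix.mulVec_injective_iff (M := R.transpose)
    have h2 : Function.Injective R.transpose.mulVec := by
      rw [h1]
      exact hRi
    exact h2
  have hψ : Function.Injective ψ := by
    intro c d hcd
    have h1 : R.transpose.mulVecLin c.1 = R.transpose.mulVecLin d.1 :=
      congrArg Subtype.val hcd
    exact Subtype.ext (hinj0 h1)
  have := LinearMap.finrank_le_finrank_of_injective hψ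
  omega

end Pool.Agent.Run7.h971.SC
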