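import Pool.Agent.Run7.h971.SC.M12

/-!
# Twelve independent scroll classes with even products
-/

set_option autoImplicit false

namespace Pool.Agent.Run7.h971.SC

open Finset Module Pool.Agent.Y95.Q Pool.Agent.Y95.Q.H4

variable {X : CubicFourfold} {H : H4 X}

/-- pairwise independent scroll classes -/
theorem pairs_of_indep {n : ℕ} {t : Fin n → Fin 23 → ℤ} (ht : ∀ i, Scroll H (t i))
    (hli : LinearIndependent ℤ t) : Pairs H t := by
  classical
  refine ⟨ht, fun i j hij => ⟨fun h => ?_, fun h => ?_⟩⟩
  · exact hij (hli.injective h)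
  · have h1 := Fintype.linearIndependent_iff.1 hli
      (fun x => if x = i then 1 else if x = j then 1 else 0) (by
        rw [Finset.sum_eq_add_sum_sdiff_singleton_of_mem (mem_univ i)]
        rw [Finset.sum_eq_single_of_mem j (by simp [hij.symm])]
        · rw [if_pos rfl, if_neg hij.symm, if_pos rfl, one_smul, one_smul, h, neg_add_cancel]
        · intro x hx hxj
          have hxi : x ≠ i := by
            rw [mem_sdiff, mem_singleton] at hx
            exact hx.2
          rw [if_neg hxi, if_neg hxj, zero_smul]) i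
    rw [if_pos rfl] at h1
    exact one_ne_zero h1

/-- linear relations between three independent vectors -/
theorem indep_three {n : ℕ} {t : Fin n → Fin 23 → ℤ} (hli : LinearIndependent ℤ t)
    {i j k : Fin n} (hij : i ≠ j) (hik : i ≠ k) (hjk : j ≠ k) {a b d : ℤ}
    (h : a • t i + b • t j + d • t k = 0) : a = 0 ∧ b = 0 ∧ d = 0 := by
  classical
  have h1 := Fintype.linearIndependent_iff.1 hli
    (fun x => if x = i then a else if x = j then b else if x = k then d else 0) (by
      have e : ∀ x : Fin n, (if x = i then a else if x = j then b else if x = k then d else 0) •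
          t x = (if x = i then a • t i else 0) + (if x = j then b • t j else 0) +
            (if x = k then d • t k else 0) := by
        intro x
        by_cases h1 : x = i
        · subst h1
          rw [if_pos rfl, if_pos rfl, if_neg hij, if_neg hik, add_zero, add_zero]
        · by_cases h2 : x = j
          · subst h2
            rw [if_neg h1, if_pos rfl, if_neg h1, if_pos rfl, if_neg hjk, add_zero, zero_add]
          · by_cases h3 : x = k
            · subst h3
              rw [if_neg h1, if_neg h2, if_pos rfl, if_neg h1, if_neg h2, if_pos rfl, add_zero,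
                zero_add]
            · rw [if_neg h1, if_neg h2, if_neg h3, if_neg h1, if_neg h2, if_neg h3, zero_smul,
                add_zero, add_zero]
      rw [Finset.sum_congr rfl fun x _ => e x, sum_add_distrib, sum_add_distrib,
        Finset.sum_ite_eq', Finset.sum_ite_eq', Finset.sum_ite_eq']
      simpa using h)
  have e1 := h1 i
  have e2 := h1 j
  have e3 := h1 k
  rw [if_pos rfl] at e1
  rw [if_neg hij.symm, if_pos rfl] at e2
  rw [if_neg hik.symm, if_neg hjk.symm, if_pos rfl] at e3
  exact ⟨e1, e2, e3⟩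

namespace Ctx

/-- Bessel's inequality for a class of norm ten -/
theorem bessel (c : Ctx H) {v : Fin 23 → ℤ} (hv : Prim H v) (h10 : H.ip v v = 10)
    (F : Finset (Fin 23 → ℤ)) (h1 : ∀ x ∈ F, Scroll H x ∧ H.ip v x = 2)
    (h2 : ∀ x ∈ F, ∀ y ∈ F, x ≠ y → H.ip x y = 0) : F.card ≤ 10 := by
  classical
  have hSh : H.IsHodge (∑ x ∈ F, x) := H.isHodge_sum _ _ fun x hx => (h1 x hx).1.1
  have e1 : H.ip v (∑ x ∈ F, x) = 2 * F.card := by
    rw [ip_sum_right, Finset.sum_congr rfl fun x hx => (h1 x hx).2]
    simp [mul_comm]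
  have e2 : H.ip (∑ x ∈ F, x) (∑ x ∈ F, x) = 4 * F.card := by
    rw [ip_sum_left]
    have : ∀ x ∈ F, H.ip x (∑ y ∈ F, y) = 4 := by
      intro x hx
      rw [ip_sum_right, Finset.sum_eq_single x, (h1 x hx).1.2.2]
      · intro y hy hyx
        exact h2 x hx y hy hyx.symm
      · intro h
        exact absurd hx h
    rw [Finset.sum_congr rfl this]
    simp [mul_comm]
  have h3 := c.hH.nonneg (v := (2 : ℤ) • v - ∑ x ∈ F, x)
    (H.isHodge_sub (H.isHodge_smul _ hv.1) hSh)
  rw [ip_sub_left, ip_sub_right, ip_sub_right, ip_smul_left, ip_smul_right, ip_smul_left,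
    ip_smul_right, c.hH.comm (∑ x ∈ F, x) v, e1, e2, h10] at h3
  omega

/-- even type: there is no class of norm ten -/
theorem ten_even (c : Ctx H) {t : Fin 12 → Fin 23 → ℤ} (ht : ∀ i, Scroll H (t i))
    (hli : LinearIndependent ℤ t)
    (hev : ∀ s f, Scroll H s → Scroll H f → H.ip s f % 2 = 0) {v : Fin 23 → ℤ}
    (hv : Prim H v) (h10 : H.ip v v = 10) : False := by
  classical
  have hH := c.hH
  have ht5 := (pairs_of_indep ht hli).cast (m := 5) (by norm_num)
  -- the products
  have hpos : ∀ f, Scroll H f → H.ip v f ≠ 3 ∧ H.ip v f ≠ 4 ∧ H.ip v f ≠ 5 ∧ H.ip v f ≠ 7 := by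
    intro f hf
    have hn : H.ip (v - f) (v - f) = 14 - 2 * H.ip v f := by
      rw [ip_sub_left, ip_sub_right, ip_sub_right, hH.comm f v, hf.2.2, h10]
      ring
    refine ⟨fun h => ?_, fun h => ?_, fun h => ?_, fun h => ?_⟩
    · have := c.ev_eight ht5 hev (hv.sub hf.prim) (by rw [hn, h]; norm_num) hf
      rw [ip_sub_left, hf.2.2, h] at this
      norm_num at this
    · exact c.ev_six ht5 hev (hv.sub hf.prim) (by rw [hn, h]; norm_num)
    · have := hev _ _ (scroll_of (hv.sub hf.prim) (by rw [hn, h]; norm_num)) hf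
      rw [ip_sub_left, hf.2.2, h] at this
      norm_num at this
    · have := c.eq_zero (hv.sub hf.prim).1 (by rw [hn, h]; norm_num)
      rw [sub_eq_zero] at this
      rw [this, hf.2.2] at h10
      norm_num at h10
  have vals : ∀ f, Scroll H f → H.ip v f = 1 ∨ H.ip v f = -1 ∨ H.ip v f = 2 ∨
      H.ip v f = -2 := by
    intro f hf
    have k1 := c.n2 hv hf.prim 1 (-1)
    have k2 := c.n2 hv hf.prim 1 1
    rw [hf.2.2, h10] at k1 k2
    have p1 := hpos f hf
    have p2 := hpos (-f) hf.neg
    rw [ip_neg_right] at p2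
    omega
  -- two classes with products one
  have one : ∀ f g, Scroll H f → Scroll H g → f ≠ g → H.ip v f = 1 → H.ip v g = 1 →
      H.ip f g = -2 := by
    intro f g hf hg hne h1 h2
    have hne' : f ≠ -g := by
      rintro rfl
      rw [ip_neg_right] at h1
      omega
    have b := c.bound hf hg hne hne'
    have e := hev f g hf hg
    have k1 := c.n3 hv hf.prim hg.prim 1 (-1) (-1) rfl
    rw [h10, hf.2.2, hg.2.2, h1, h2] at k1
    have k2 : H.ip f g ≠ 2 := by
      intro h
      have hs : Scroll H (f - g) := scroll_of (hf.prim.sub hg.prim) (by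
        rw [ip_sub_left, ip_sub_right, ip_sub_right, hH.comm g f, hf.2.2, hg.2.2, h]
        norm_num)
      have := vals _ hs
      rw [ip_sub_right, h1, h2] at this
      omega
    omega
  -- two classes with products two
  have two : ∀ f g, Scroll H f → Scroll H g → f ≠ g → H.ip v f = 2 → H.ip v g = 2 →
      H.ip f g = 0 := by
    intro f g hf hg hne h1 h2
    have hne' : f ≠ -g := by
      rintro rfl
      rw [ip_neg_right] at h1
      omega
    have b := c.bound hf hg hne hne'
    have e := hev f g hf hg
    have k2 : H.ip f g ≠ 2 := by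
      intro h
      have hs : Scroll H (f - g) := scroll_of (hf.prim.sub hg.prim) (by
        rw [ip_sub_left, ip_sub_right, ip_sub_right, hH.comm g f, hf.2.2, hg.2.2, h]
        norm_num)
      have := vals _ hs
      rw [ip_sub_right, h1, h2] at this
      omega
    have k3 : H.ip f g ≠ -2 := by
      intro h
      have hs : Scroll H (f + g) := scroll_of (hf.prim.add hg.prim) (by
        rw [ip_add_left, ip_add_right, ip_add_right, hH.comm g f, hf.2.2, hg.2.2, h]
        norm_num)
      have := vals _ hs
      rw [ip_add_right, h1, h2] at this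
      omega
    omega
  -- normalise the signs
  have hex : ∀ i, ∃ ε : ℤ, (ε = 1 ∨ ε = -1) ∧ (H.ip v (ε • t i) = 1 ∨ H.ip v (ε • t i) = 2) := by
    intro i
    rcases vals _ (ht i) with h | h | h | h
    · exact ⟨1, Or.inl rfl, Or.inl (by rw [one_smul, h])⟩
    · exact ⟨-1, Or.inr rfl, Or.inl (by rw [neg_one_smul, ip_neg_right, h, neg_neg])⟩
    · exact ⟨1, Or.inl rfl, Or.inr (by rw [one_smul, h])⟩
    · exact ⟨-1, Or.inr rfl, Or.inr (by rw [neg_one_smul, ip_neg_right, h, neg_neg])⟩
  choose ε hε hval using hex
  set s : Fin 12 → Fin 23 → ℤ := fun i => ε i • t i with hs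
  have hsS : ∀ i, Scroll H (s i) := by
    intro i
    rcases hε i with h | h
    · simp only [hs, h, one_smul]
      exact ht i
    · simp only [hs, h, neg_one_smul]
      exact (ht i).neg
  have hε0 : ∀ i, ε i ≠ 0 := by
    intro i
    rcases hε i with h | h <;> rw [h] <;> norm_num
  have sinj : ∀ i j, i ≠ j → s i ≠ s j := by
    intro i j hij h
    obtain ⟨p1, p2⟩ := (pairs_of_indep ht hli).2 i j hij
    simp only [hs] at h
    rcases hε i with h1 | h1 <;> rcases hε j with h2 | h2 <;>
      simp only [h1, h2, one_smul, neg_one_smul] at h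
    · exact p1 h
    · exact p2 h
    · exact p2 (by rw [← h, neg_neg])
    · exact p1 (neg_injective h)
  have three : ∀ i j k, i ≠ j → i ≠ k → j ≠ k → ∀ a b d : ℤ,
      a • s i + b • s j + d • s k = 0 → a = 0 ∧ b = 0 ∧ d = 0 := by
    intro i j k hij hik hjk a b d h
    simp only [hs, ← mul_smul] at h
    obtain ⟨h1, h2, h3⟩ := indep_three hli hij hik hjk h
    exact ⟨(mul_eq_zero.1 h1).resolve_right (hε0 i), (mul_eq_zero.1 h2).resolve_right (hε0 j),
      (mul_eq_zero.1 h3).resolve_right (hε0 k)⟩
  -- no three products one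
  have no3 : ∀ i j k, i ≠ j → i ≠ k → j ≠ k → H.ip v (s i) = 1 → H.ip v (s j) = 1 →
      H.ip v (s k) = 1 → False := by
    intro i j k hij hik hjk h1 h2 h3
    have e1 := one _ _ (hsS i) (hsS j) (sinj i j hij) h1 h2
    have e2 := one _ _ (hsS i) (hsS k) (sinj i k hik) h1 h3
    have e3 := one _ _ (hsS j) (hsS k) (sinj j k hjk) h2 h3
    have := c.eq_zero (u := s i + s j + s k)
      (H.isHodge_add (H.isHodge_add (hsS i).1 (hsS j).1) (hsS k).1) (by
        simp only [ip_add_left, ip_add_right, hH.comm (s j) (s i), hH.comm (s k) (s i),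
          hH.comm (s k) (s j), (hsS i).2.2, (hsS j).2.2, (hsS k).2.2, e1, e2, e3]
        norm_num)
    have h4 := three i j k hij hik hjk 1 1 1 (by simpa using this)
    exact one_ne_zero h4.1
  by_cases hcase : ∃ j k, j ≠ k ∧ H.ip v (s j) = 1 ∧ H.ip v (s k) = 1
  · obtain ⟨j, k, hjk, hj, hk⟩ := hcase
    have hjk' := one _ _ (hsS j) (hsS k) (sinj j k hjk) hj hk
    have hu : Scroll H (s j + s k) := scroll_of ((hsS j).prim.add (hsS k).prim) (by
      rw [ip_add_left, ip_add_right, ip_add_right, hH.comm (s k) (s j), (hsS j).2.2,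
        (hsS k).2.2, hjk']
      norm_num)
    let I : Finset (Fin 12) := (univ.erase j).erase k
    have hI : I.card = 10 := by
      have h1 : (univ.erase j : Finset (Fin 12)).card = 11 := by
        rw [card_erase_of_mem (mem_univ _), card_univ, Fintype.card_fin]
      change ((univ.erase j).erase k).card = 10
      rw [card_erase_of_mem (by rw [mem_erase]; exact ⟨hjk.symm, mem_univ _⟩), h1]
    have hnot : s j + s k ∉ I.image s := by
      intro h
      obtain ⟨i, hi, e⟩ := mem_image.1 h
      rw [mem_erase, mem_erase] at hi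
      have := three j k i hjk (fun h => hi.2.1 h.symm) (fun h => hi.1 h.symm) 1 1 (-1) (by
        rw [one_smul, one_smul, neg_one_smul, e, add_neg_cancel])
      exact one_ne_zero this.1
    have hcard : (insert (s j + s k) (I.image s)).card = 11 := by
      rw [card_insert_of_notMem hnot, card_image_of_injOn, hI]
      intro a _ b _ hab
      by_contra hne
      exact sinj a b hne hab
    have hF : ∀ x ∈ insert (s j + s k) (I.image s), Scroll H x ∧ H.ip v x = 2 := by
      intro x hx
      rw [mem_insert] at hx
      rcases hx with rfl | hx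
      · exact ⟨hu, by rw [ip_add_right, hj, hk]; norm_num⟩
      · obtain ⟨i, hi, rfl⟩ := mem_image.1 hx
        rw [mem_erase, mem_erase] at hi
        refine ⟨hsS i, ?_⟩
        rcases hval i with h | h
        · exact (no3 i j k hi.2.1 hi.1 hjk h hj hk).elim
        · exact h
    have := c.bessel hv h10 _ hF fun x hx y hy hxy =>
      two x y (hF x hx).1 (hF y hy).1 hxy (hF x hx).2 (hF y hy).2
    omega
  · push Not at hcase
    let I : Finset (Fin 12) := univ.filter fun i => H.ip v (s i) = 2
    have hI : 11 ≤ I.card := by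
      have h1 : (univ.filter fun i : Fin 12 => ¬ H.ip v (s i) = 2).card ≤ 1 := by
        rw [card_le_one]
        intro a ha b hb
        rw [mem_filter] at ha hb
        by_contra hne
        exact hcase a b hne ((hval a).resolve_right ha.2) ((hval b).resolve_right hb.2)
      have h2 := Finset.card_filter_add_card_filter_not (s := (univ : Finset (Fin 12)))
        (fun i => H.ip v (s i) = 2)
      rw [card_univ, Fintype.card_fin] at h2
      change 11 ≤ (univ.filter fun i => H.ip v (s i) = 2).card
      omega
    have hF : ∀ x ∈ I.image s, Scroll H x ∧ H.ip v x = 2 := by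
      intro x hx
      obtain ⟨i, hi, rfl⟩ := mem_image.1 hx
      rw [mem_filter] at hi
      exact ⟨hsS i, hi.2⟩
    have := c.bessel hv h10 _ hF fun x hx y hy hxy =>
      two x y (hF x hx).1 (hF y hy).1 hxy (hF x hx).2 (hF y hy).2
    rw [card_image_of_injOn (by
      intro a _ b _ hab
      by_contra hne
      exact sinj a b hne hab)] at this
    omega

/-- **even products** -/
theorem scrolls_even (c : Ctx H) {t : Fin 12 → Fin 23 → ℤ}
    (ht : ∀ i, Scroll H (t i))
    (hli : LinearIndependent ℤ (Fin.cons H.h t : Fin 13 → Fin 23 → ℤ))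
    (hev : ∀ s f, Scroll H s → Scroll H f → H.ip s f % 2 = 0) : False := by
  have hli' : LinearIndependent ℤ t := hli.comp Fin.succ (Fin.succ_injective _)
  have ht5 := (pairs_of_indep ht hli').cast (m := 5) (by norm_num)
  refine c.even_twelve (fun u hu h => ?_) (fun i => Or.inr (ht i)) hli
  by_contra hcon
  have e0 := c.d hu
  have e1 : H.disc u = 18 ∨ H.disc u = 30 := by omega
  obtain ⟨k, g, e, hg, hgn⟩ := norm0 c.hH hu (by omega)
  rcases e1 with e1 | e1
  · exact c.ev_six ht5 hev hg (by omega)
  · exact c.ten_even ht hli' hev hg (by omega)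

end Ctx

end Pool.Agent.Run7.h971.SC
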