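import Pool.Agent.Y95.Q.Defs

/-!
# The lattice of a cubic fourfold: the structure `IsLattice`
-/

set_option autoImplicit false

namespace Pool.Agent.Run7.h971.SC

open Pool.Agent.Y95.Q

/-- The properties of the lattice `H^4(X, ℤ)` of a cubic fourfold, with its Hodge classes: the form is
symmetric and unimodular, and positive on the Hodge classes (Hodge, Riemann); the degree is three
and `h` is characteristic; there is no Hodge class `v` with `v.h = 1`, `v.v = 1` or `v.h = 0`, `v.v = 2`
(the discriminants `2` and `6` do not occur, Voisin, Hassett); the classes of the planes are the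
Hodge classes with `v.h = 1`, `v.v = 3` (Voisin). Nothing is assumed on rationality. -/
structure IsLattice {X : CubicFourfold} (H : H4 X) : Prop where
  symm : ∀ i j, H.B i j = H.B j i
  unimodular : IsUnit H.B.det
  h_hodge : H.IsHodge H.h
  h_self : H.ip H.h H.h = 3
  char : ∀ v, Even (H.ip v v - H.ip v H.h)
  pos : ∀ v, H.IsHodge v → v ≠ 0 → 0 < H.ip v v
  disc_two : ∀ v, H.IsHodge v → H.ip v H.h = 1 → H.ip v v ≠ 1
  disc_six : ∀ v, H.IsHodge v → H.ip v H.h = 0 → H.ip v v ≠ 2
  cl_injective : Function.Injective H.cl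
  cl_range : ∀ v, (∃ P, H.cl P = v) ↔ H.IsHodge v ∧ H.ip v H.h = 1 ∧ H.ip v v = 3

end Pool.Agent.Run7.h971.SC
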