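import Pool.Agent.Run7.h971.SC.Count3

/-!
# Twelve independent classes of planes and scrolls
-/

set_option autoImplicit false

namespace Pool.Agent.Run7.h971.SC

open Finset Module Pool.Agent.Y95.Q Pool.Agent.Y95.Q.H4

variable {X : CubicFourfold} {H : H4 X}

/-- `v` is in the rational span of `h` and the classes `t i` -/
def Rep (H : H4 X) {n : ℕ} (t : Fin n → Fin 23 → ℤ) (v : Fin 23 → ℤ) : Prop :=
  ∃ (m c0 : ℤ) (c : Fin n → ℤ), 0 < m ∧ m • v = c0 • H.h + ∑ i, c i • t i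

namespace Rep

variable {n : ℕ} {t : Fin n → Fin 23 → ℤ}

theorem of_ne {v : Fin 23 → ℤ} {m c0 : ℤ} {c : Fin n → ℤ} (hm : m ≠ 0)
    (e : m • v = c0 • H.h + ∑ i, c i • t i) : Rep H t v := by
  rcases lt_or_gt_of_ne hm with h | h
  · refine ⟨-m, -c0, fun i => -c i, by omega, ?_⟩
    rw [neg_smul, e]
    simp only [neg_smul, sum_neg_distrib]
    abel
  · exact ⟨m, c0, c, h, e⟩

theorem h : Rep H t H.h := ⟨1, 1, 0, one_pos, by simp⟩

theorem gen (i : Fin n) : Rep H t (t i) := by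
  classical
  refine ⟨1, 0, Pi.single i 1, one_pos, ?_⟩
  rw [zero_smul, zero_add, one_smul, Finset.sum_eq_single i]
  · rw [Pi.single_eq_same, one_smul]
  · intro j _ hj
    rw [Pi.single_eq_of_ne hj, zero_smul]
  · intro h
    exact absurd (mem_univ _) h

theorem zero : Rep H t 0 := ⟨1, 0, 0, one_pos, by simp⟩

theorem add {v w : Fin 23 → ℤ} (hv : Rep H t v) (hw : Rep H t w) : Rep H t (v + w) := by
  obtain ⟨m, c0, c, hm, e⟩ := hv
  obtain ⟨m', c0', c', hm', e'⟩ := hw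
  refine ⟨m' * m, m' * c0 + m * c0', fun i => m' * c i + m * c' i, mul_pos hm' hm, ?_⟩
  have e1 : (m' * m) • (v + w) = m' • (m • v) + m • (m' • w) := by
    rw [smul_add, mul_smul, ← mul_smul m m', mul_comm m m']
  rw [e1, e, e']
  simp only [add_smul, mul_smul, smul_add, sum_add_distrib, smul_sum]
  abel

theorem smul {v : Fin 23 → ℤ} (hv : Rep H t v) (k : ℤ) : Rep H t (k • v) := by
  obtain ⟨m, c0, c, hm, e⟩ := hv
  refine ⟨m, k * c0, fun i => k * c i, hm, ?_⟩
  rw [smul_comm, e]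
  simp only [mul_smul, smul_add, smul_sum]

theorem of_smul {v : Fin 23 → ℤ} {k : ℤ} (hk : k ≠ 0) (hv : Rep H t (k • v)) :
    Rep H t v := by
  obtain ⟨m, c0, c, hm, e⟩ := hv
  refine of_ne (m := m * k) (c0 := c0) (c := c) (mul_ne_zero hm.ne' hk) ?_
  rw [mul_smul, e]

end Rep

/-- the saturation of the group spanned by `h` and the `t i` -/
def satM (H : H4 X) {n : ℕ} (t : Fin n → Fin 23 → ℤ) : Submodule ℤ (Fin 23 → ℤ) where
  carrier := {v | H.IsHodge v ∧ Rep H t v}
  add_mem' := fun ha hb => ⟨H.isHodge_add ha.1 hb.1, ha.2.add hb.2⟩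
  zero_mem' := ⟨H.isHodge_zero, Rep.zero⟩
  smul_mem' := fun k _ hv => ⟨H.isHodge_smul k hv.1, hv.2.smul k⟩

theorem mem_satM {n : ℕ} {t : Fin n → Fin 23 → ℤ} {v : Fin 23 → ℤ} :
    v ∈ satM H t ↔ H.IsHodge v ∧ Rep H t v := Iff.rfl

theorem sat_gen {n : ℕ} {t : Fin n → Fin 23 → ℤ} (htH : ∀ i, H.IsHodge (t i)) (i : Fin n) :
    t i ∈ satM H t := ⟨htH i, Rep.gen i⟩

/-- a form of rank one modulo a prime number is impossible -/
theorem no_form (hH : H.IsCohomology) {t : Fin 12 → Fin 23 → ℤ} (htH : ∀ i, H.IsHodge (t i))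
    (hli : LinearIndependent ℤ (Fin.cons H.h t : Fin 13 → Fin 23 → ℤ)) {p : ℕ} (hp : p.Prime)
    (e : Fin 23 → ℤ)
    (hM : ∀ v ∈ satM H t, ∀ w ∈ satM H t, (p : ℤ) ∣ H.ip v w - H.ip v e * H.ip w e) :
    False := by
  have : Fact p.Prime := ⟨hp⟩
  have hp0 : (p : ℤ) ≠ 0 := by exact_mod_cast hp.ne_zero
  have h1 := rank_bound hH (p := p) (M := satM H t) (fun v hv =>
    ⟨H.isHodge_of_smul hp0 hv.1, hv.2.of_smul hp0⟩) e hM
  have hmem : ∀ i : Fin 13, (Fin.cons H.h t : Fin 13 → Fin 23 → ℤ) i ∈ satM H t := by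
    intro i
    refine Fin.cases ?_ (fun j => ?_) i
    · exact ⟨hH.h_hodge, Rep.h⟩
    · exact sat_gen htH j
  have hli' : LinearIndependent ℤ (fun i : Fin 13 =>
      (⟨(Fin.cons H.h t : Fin 13 → Fin 23 → ℤ) i, hmem i⟩ : satM H t)) := by
    refine LinearIndependent.of_comp (Submodule.subtype _) ?_
    exact hli
  have h2 := hli'.fintype_card_le_finrank
  rw [Fintype.card_fin] at h2
  omega

/-- the property of the small discriminants in the even case -/
def Two (H : H4 X) : Prop := ∀ u, H.IsHodge u → H.disc u % 4 = 2 → 42 < H.disc u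

namespace Ctx

theorem two_scroll (c : Ctx H) (h2 : Two H) {s w : Fin 23 → ℤ}
    (hs : Scroll H s) (hw : H.IsHodge w) (hd : H.disc w < 40) :
    4 ∣ H.disc w ∧ Bf H s w % 2 = 0 := by
  have h1 := c.d hw
  have h2' := h2 _ hw
  refine ⟨by omega, ?_⟩
  have e1 := disc_add_smul c.hH w s 1
  have e2 := disc_add_smul c.hH w s (-1)
  have e3 : Bf H w s = 3 * H.ip s w := by rw [Bf_comm c.hH, Bf_scroll hs]
  have e4 : Bf H s w = 3 * H.ip s w := Bf_scroll hs w
  rw [e3, disc_scroll c.hH hs] at e1 e2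
  have h3 := h2 _ (H.isHodge_add hw (H.isHodge_smul 1 hs.1))
  have h4 := h2 _ (H.isHodge_add hw (H.isHodge_smul (-1) hs.1))
  rw [e1] at h3
  rw [e2] at h4
  rw [e4]
  omega

/-- **the even case** -/
theorem even_twelve (c : Ctx H) (h2 : Two H) {t : Fin 12 → Fin 23 → ℤ}
    (ht : ∀ i, H.IsPl (t i) ∨ Scroll H (t i))
    (hli : LinearIndependent ℤ (Fin.cons H.h t : Fin 13 → Fin 23 → ℤ)) : False := by
  classical
  have hH := c.hH
  have htH : ∀ i, H.IsHodge (t i) := fun i => (ht i).elim (fun h => h.1) fun h => h.1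
  have htd : ∀ i, H.disc (t i) ≤ 12 := by
    intro i
    rcases ht i with h | h
    · rw [disc_pl hH h]
      norm_num
    · rw [disc_scroll hH h]
  have hsum : ∑ i, H.disc (t i) ≤ 144 := by
    have := Finset.sum_le_card_nsmul univ (fun i => H.disc (t i)) 12 fun i _ => htd i
    simp only [card_univ, Fintype.card_fin, nsmul_eq_mul] at this
    push_cast at this
    linarith
  have pair : ∀ s x, Scroll H s → (H.IsPl x ∨ Scroll H x) → Bf H s x % 2 = 0 := by
    rintro s x hs (h | h)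
    · rw [Bf_comm hH]
      exact c.Bf_plane h hs.1
    · exact (c.two_scroll h2 hs h.1 (by rw [disc_scroll hH h]; norm_num)).2
  have red : ∀ y ∈ satM H t, ∃ k : Fin 12 → ℤ, H.disc (y - ∑ i, k i • t i) < 40 := by
    intro y hy
    obtain ⟨k, hk⟩ := reduce hH htH hy.2
    exact ⟨k, by omega⟩
  have hwH : ∀ y, H.IsHodge y → ∀ k : Fin 12 → ℤ, H.IsHodge (y - ∑ i, k i • t i) :=
    fun y hy k => H.isHodge_sub hy (H.isHodge_sum _ _ fun i _ => H.isHodge_smul _ (htH i))
  have all : ∀ s, Scroll H s → ∀ y ∈ satM H t, Bf H s y % 2 = 0 := by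
    intro s hs y hy
    obtain ⟨k, hk⟩ := red y hy
    exact Bf_of_reduce hH rfl (c.two_scroll h2 hs (hwH y hy.1 k) hk).2
      fun i => pair s (t i) hs (ht i)
  have all' : ∀ i, ∀ y ∈ satM H t, Bf H (t i) y % 2 = 0 := by
    intro i y hy
    rcases ht i with h | h
    · exact c.Bf_plane h hy.1
    · exact all _ h y hy
  have ht4 : ∀ i, (4 : ℤ) ∣ H.disc (t i) := by
    intro i
    rcases ht i with h | h
    · rw [disc_pl hH h]
      norm_num
    · rw [disc_scroll hH h]
      norm_num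
  have key : ∀ (s : Finset (Fin 12)) (k : Fin 12 → ℤ), ∀ w ∈ satM H t, 4 ∣ H.disc w →
      4 ∣ H.disc (w + ∑ i ∈ s, k i • t i) ∧ w + ∑ i ∈ s, k i • t i ∈ satM H t := by
    intro s k w hw h4
    induction s using Finset.induction_on with
    | empty =>
      rw [sum_empty, add_zero]
      exact ⟨h4, hw⟩
    | insert a s ha ih =>
      have e : w + ∑ i ∈ insert a s, k i • t i = (w + ∑ i ∈ s, k i • t i) + k a • t a := by
        rw [sum_insert ha]
        abel
      rw [e, disc_add_smul hH]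
      refine ⟨?_, Submodule.add_mem _ ih.2 (Submodule.smul_mem _ _ (sat_gen htH a))⟩
      obtain ⟨q, hq⟩ := ih.1
      obtain ⟨r, hr⟩ := ht4 a
      have h5 := all' a _ ih.2
      rw [Bf_comm hH] at h5
      obtain ⟨u, hu⟩ := Int.dvd_of_emod_eq_zero h5
      rw [hq, hr, hu]
      exact ⟨q + k a * u + k a ^ 2 * r, by ring⟩
  have four : ∀ y ∈ satM H t, 4 ∣ H.disc y := by
    intro y hy
    obtain ⟨k, hk⟩ := red y hy
    have hs : ∑ i, k i • t i ∈ satM H t :=
      Submodule.sum_mem _ fun i _ => Submodule.smul_mem _ _ (sat_gen htH i)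
    have hw4 : 4 ∣ H.disc (y - ∑ i, k i • t i) := by
      have h1 := c.d (hwH y hy.1 k)
      have h3 := h2 _ (hwH y hy.1 k)
      omega
    have := (key univ k _ (Submodule.sub_mem _ hy hs) hw4).1
    rwa [sub_add_cancel] at this
  refine no_form hH htH hli Nat.prime_two H.h fun v hv w hw => ?_
  have h3 := four _ (Submodule.add_mem _ hv hw)
  have h4 := four v hv
  have h5 := four w hw
  have e := disc_add_smul hH v w 1
  rw [one_smul] at e
  have h6 : Bf H v w = 3 * H.ip v w - H.ip v H.h * H.ip w H.h := rfl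
  generalize H.ip v H.h * H.ip w H.h = z at *
  push_cast
  omega

/-- **the case of a plane** -/
theorem plane_twelve (c : Ctx H) {P : Fin 23 → ℤ} (hP : H.IsPl P) {t : Fin 12 → Fin 23 → ℤ}
    (ht : ∀ i, H.IsPl (t i) ∨ Scroll H (t i))
    (hli : LinearIndependent ℤ (Fin.cons H.h t : Fin 13 → Fin 23 → ℤ)) : False :=
  c.even_twelve (fun _ hu h => c.pl_two hP hu h) ht hli

end Ctx

end Pool.Agent.Run7.h971.SC
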