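import Pool.Agent.Run7.h971.SC.Even12

/-!
# Twelve independent scroll classes, two of which have an odd product
-/

set_option autoImplicit false

namespace Pool.Agent.Run7.h971.SC

open Finset Module Pool.Agent.Y95.Q Pool.Agent.Y95.Q.H4

variable {X : CubicFourfold} {H : H4 X}

/-- the situation of the odd case -/
structure Odd3 (H : H4 X) : Prop extends Ctx H where
  /-- there are no planes -/
  hnp : ∀ P, ¬ H.IsPl P
  five : ∃ t : Fin 5 → Fin 23 → ℤ, Pairs H t
  ab : ∃ a b, Scroll H a ∧ Scroll H b ∧ H.ip a b = 1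

namespace Odd3

theorem t3' (o : Odd3 H) : ∃ a, Scroll H a ∧ (∃ b, Scroll H b ∧ H.ip a b = 1) ∧
    ∀ e f, Scroll H e → Scroll H f → (3 : ℤ) ∣ H.ip e f - H.ip e a * H.ip f a := by
  obtain ⟨t, ht⟩ := o.five
  obtain ⟨a, b, ha, hb, hab⟩ := o.ab
  refine ⟨a, ha, ⟨b, hb, hab⟩, fun e f he hf => ?_⟩
  have := Int.dvd_of_emod_eq_zero (o.toCtx.t3 ht ha hb hab he hf)
  rwa [o.hH.comm a e, o.hH.comm a f] at this

theorem six' (o : Odd3 H) {v s : Fin 23 → ℤ} (hv : Prim H v) (h6 : H.ip v v = 6)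
    (hs : Scroll H s) : H.ip v s % 3 = 0 := by
  obtain ⟨t, ht⟩ := o.five
  obtain ⟨a, b, ha, hb, hab⟩ := o.ab
  exact o.toCtx.six ht ha hb hab hv h6 hs

theorem eight' (o : Odd3 H) {v : Fin 23 → ℤ} (hv : Prim H v) : H.ip v v ≠ 8 := by
  intro h8
  obtain ⟨t, ht⟩ := o.five
  obtain ⟨a, b, ha, hb, hab⟩ := o.ab
  exact o.toCtx.eight ht ha hb hab hv h8

theorem seven' (o : Odd3 H) {v : Fin 23 → ℤ} (hv : H.IsHodge v) (h1 : H.ip v H.h = 1)
    (h7 : H.ip v v = 7) : False := by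
  obtain ⟨a, b, ha, hb, hab⟩ := o.ab
  exact o.toCtx.seven o.hnp ha hb hab hv h1 h7

/-- products of a class of norm ten -/
theorem vals10 (o : Odd3 H) {v f : Fin 23 → ℤ} (hv : Prim H v) (h10 : H.ip v v = 10)
    (hf : Scroll H f) : H.ip v f % 3 ≠ 0 ∧ -5 ≤ H.ip v f ∧ H.ip v f ≤ 5 := by
  have c := o.toCtx
  have pos : ∀ f, Scroll H f → H.ip v f ≠ 3 ∧ H.ip v f ≠ 7 := by
    intro f hf
    have hn : H.ip (v - f) (v - f) = 14 - 2 * H.ip v f := by
      rw [ip_sub_left, ip_sub_right, ip_sub_right, c.hH.comm f v, hf.2.2, h10]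
      ring
    refine ⟨fun h => ?_, fun h => ?_⟩
    · exact o.eight' (hv.sub hf.prim) (by rw [hn, h]; norm_num)
    · have := c.eq_zero (hv.sub hf.prim).1 (by rw [hn, h]; norm_num)
      rw [sub_eq_zero] at this
      rw [this, hf.2.2] at h10
      norm_num at h10
  have k1 := c.n2 hv hf.prim 1 (-1)
  have k2 := c.n2 hv hf.prim 1 1
  rw [hf.2.2, h10] at k1 k2
  have p1 := pos f hf
  have p2 := pos (-f) hf.neg
  rw [ip_neg_right] at p2
  omega

theorem large10 (o : Odd3 H) {v s s' : Fin 23 → ℤ} (hv : Prim H v) (h10 : H.ip v v = 10)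
    (hs : Scroll H s) (hs' : Scroll H s') (hn : (3 : ℤ) ∣ H.ip s s' - 1)
    (h : H.ip v s = 4 ∨ H.ip v s = -4 ∨ H.ip v s = 5 ∨ H.ip v s = -5) :
    (3 : ℤ) ∣ H.ip v s - H.ip v s' := by
  have c := o.toCtx
  obtain ⟨a, ha, -, h3⟩ := o.t3'
  have key : ∀ v : Fin 23 → ℤ, Prim H v → H.ip v v = 10 → (H.ip v s = 4 ∨ H.ip v s = 5) →
      (3 : ℤ) ∣ H.ip v s - H.ip v s' := by
    intro v hv h10 h
    have hn' : H.ip (v - s) (v - s) = 14 - 2 * H.ip v s := by
      rw [ip_sub_left, ip_sub_right, ip_sub_right, c.hH.comm s v, hs.2.2, h10]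
      ring
    rcases h with h | h
    · have := o.six' (hv.sub hs.prim) (by rw [hn', h]; norm_num) hs'
      rw [ip_sub_left] at this
      omega
    · have hw : Scroll H (v - s) := scroll_of (hv.sub hs.prim) (by rw [hn', h]; norm_num)
      have e1 := h3 _ _ hw hs
      have e2 := h3 _ _ hw hs'
      have e3 := h3 _ _ hs hs'
      have e4 := h3 _ _ hs hs
      rw [H.ip_sub_left v s s, hs.2.2, h] at e1
      rw [H.ip_sub_left v s s'] at e2
      rw [hs.2.2] at e4
      generalize H.ip (v - s) a = x at *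
      generalize H.ip s a = y at *
      generalize H.ip s' a = z at *
      -- `y z = 1`, `y y = 1`, so `z = y`
      have e5 : (3 : ℤ) ∣ y - z := by
        obtain ⟨k1, hk1⟩ := e3
        obtain ⟨k2, hk2⟩ := e4
        obtain ⟨k3, hk3⟩ := hn
        have : (3 : ℤ) ∣ y * (y - z) := ⟨k1 - k2 - k3 + 1, by linarith⟩
        rcases Int.prime_three.dvd_or_dvd this with h | h
        · exfalso
          obtain ⟨k, rfl⟩ := h
          have h9 : 3 * k * (3 * k) = 9 * (k * k) := by ring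
          rw [h9] at hk2
          omega
        · exact h
      obtain ⟨k5, hk5⟩ := e5
      obtain ⟨k1, hk1⟩ := e1
      obtain ⟨k2, hk2⟩ := e2
      obtain ⟨k3, hk3⟩ := hn
      rw [h]
      refine ⟨k1 - k2 - k3 + x * k5 + 1, ?_⟩
      have e6 : y = z + 3 * k5 := by linarith
      rw [e6] at hk1
      linarith
  rcases h with h | h | h | h
  · exact key v hv h10 (Or.inl h)
  · have := key (-v) hv.neg (by rw [ip_neg_left, ip_neg_right, h10, neg_neg])
      (Or.inl (by rw [ip_neg_left, h, neg_neg]))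
    rw [ip_neg_left, ip_neg_left] at this
    omega
  · exact key v hv h10 (Or.inr h)
  · have := key (-v) hv.neg (by rw [ip_neg_left, ip_neg_right, h10, neg_neg])
      (Or.inr (by rw [ip_neg_left, h, neg_neg]))
    rw [ip_neg_left, ip_neg_left] at this
    omega

/-- two scroll classes and a class of norm ten -/
theorem coh10 (o : Odd3 H) {v s s' : Fin 23 → ℤ} (hv : Prim H v) (h10 : H.ip v v = 10)
    (hs : Scroll H s) (hs' : Scroll H s') (hn : (3 : ℤ) ∣ H.ip s s' - 1)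
    (h : ¬ (3 : ℤ) ∣ H.ip v s - H.ip v s') :
    H.ip s s' = 1 ∧ ((H.ip v s = 1 ∧ H.ip v s' = -1) ∨ (H.ip v s = -1 ∧ H.ip v s' = 1)) := by
  have c := o.toCtx
  have v1 := o.vals10 hv h10 hs
  have v2 := o.vals10 hv h10 hs'
  have l1 : ¬ (H.ip v s = 4 ∨ H.ip v s = -4 ∨ H.ip v s = 5 ∨ H.ip v s = -5) := fun h' =>
    h (o.large10 hv h10 hs hs' hn h')
  have l2 : ¬ (H.ip v s' = 4 ∨ H.ip v s' = -4 ∨ H.ip v s' = 5 ∨ H.ip v s' = -5) := fun h' =>
    h (by
      have := o.large10 hv h10 hs' hs (by rwa [c.hH.comm s' s]) h'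
      omega)
  have hcases := c.cases hs hs'
  have hx : H.ip s s' = 1 ∨ H.ip s s' = -2 := by
    rcases hcases with ⟨h', -⟩ | ⟨-, h'⟩ | h'
    · exact absurd (by rw [h', sub_self]; exact dvd_zero _) h
    · omega
    · omega
  have norm : ∀ l m : ℤ, (l = 1 ∨ l = -1) → (m = 1 ∨ m = -1) →
      18 + 2 * (l * H.ip v s) + 2 * (m * H.ip v s') + 2 * (l * m * H.ip s s') ≠ 14 ∧
      18 + 2 * (l * H.ip v s) + 2 * (m * H.ip v s') + 2 * (l * m * H.ip s s') ≠ 8 := by
    intro l m hl hm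
    have e := c.e3 v s s' 1 l m
    have e' : H.ip ((1 : ℤ) • v + l • s + m • s') ((1 : ℤ) • v + l • s + m • s') =
        18 + 2 * (l * H.ip v s) + 2 * (m * H.ip v s') + 2 * (l * m * H.ip s s') := by
      rw [e, h10, hs.2.2, hs'.2.2]
      rcases hl with rfl | rfl <;> rcases hm with rfl | rfl <;> ring
    have hp : Prim H ((1 : ℤ) • v + l • s + m • s') :=
      ((hv.smul 1).add (hs.prim.smul l)).add (hs'.prim.smul m)
    rw [← e']
    exact ⟨(c.n hp).2.2.1, o.eight' hp⟩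
  have n1 := norm 1 1 (Or.inl rfl) (Or.inl rfl)
  have n2 := norm 1 (-1) (Or.inl rfl) (Or.inr rfl)
  have n3 := norm (-1) 1 (Or.inr rfl) (Or.inl rfl)
  have n4 := norm (-1) (-1) (Or.inr rfl) (Or.inr rfl)
  generalize H.ip v s = p at *
  generalize H.ip v s' = q at *
  generalize H.ip s s' = x at *
  have hp : p = 1 ∨ p = -1 ∨ p = 2 ∨ p = -2 := by omega
  have hq : q = 1 ∨ q = -1 ∨ q = 2 ∨ q = -2 := by omega
  rcases hx with rfl | rfl <;> rcases hp with rfl | rfl | rfl | rfl <;>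
    rcases hq with rfl | rfl | rfl | rfl <;> omega

/-- classes of norm ten -/
theorem ten3 (o : Odd3 H) {a : Fin 23 → ℤ} (ha : Scroll H a)
    (h3 : ∀ e f, Scroll H e → Scroll H f → (3 : ℤ) ∣ H.ip e f - H.ip e a * H.ip f a)
    {v s : Fin 23 → ℤ} (hv : Prim H v) (h10 : H.ip v v = 10) (hs : Scroll H s) :
    (3 : ℤ) ∣ H.ip v s - H.ip v a * H.ip s a := by
  have c := o.toCtx
  have hH := c.hH
  by_contra hcon
  -- normalised scroll classes
  have nrm : ∀ f, Scroll H f → (3 : ℤ) ∣ H.ip f a - 1 ∨ (3 : ℤ) ∣ H.ip (-f) a - 1 := by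
    intro f hf
    have e := h3 f f hf hf
    rw [hf.2.2] at e
    rw [ip_neg_left]
    have h1 : (3 : ℤ) ∣ (H.ip f a - 1) * (H.ip f a + 1) := by
      obtain ⟨k, hk⟩ := e
      exact ⟨1 - k, by linarith⟩
    rcases Int.prime_three.dvd_or_dvd h1 with h | h
    · exact Or.inl h
    · right
      obtain ⟨k, hk⟩ := h
      exact ⟨-k, by linarith⟩
  have prod : ∀ f g, Scroll H f → Scroll H g → (3 : ℤ) ∣ H.ip f a - 1 →
      (3 : ℤ) ∣ H.ip g a - 1 → (3 : ℤ) ∣ H.ip f g - 1 := by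
    intro f g hf hg h1 h2
    obtain ⟨k1, hk1⟩ := h3 f g hf hg
    obtain ⟨k2, hk2⟩ := h1
    obtain ⟨k3, hk3⟩ := h2
    have e1 : H.ip f a = 3 * k2 + 1 := by linarith
    have e2 : H.ip g a = 3 * k3 + 1 := by linarith
    rw [e1, e2] at hk1
    exact ⟨k1 + 3 * k2 * k3 + k2 + k3, by linarith⟩
  have haa : (3 : ℤ) ∣ H.ip a a - 1 := by
    rw [ha.2.2]
    norm_num
  -- a normalised scroll class with a different residue
  obtain ⟨s, hs, hsa, hsv⟩ : ∃ s, Scroll H s ∧ (3 : ℤ) ∣ H.ip s a - 1 ∧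
      ¬ (3 : ℤ) ∣ H.ip v s - H.ip v a := by
    rcases nrm s hs with h | h
    · refine ⟨s, hs, h, fun h' => hcon ?_⟩
      obtain ⟨k1, hk1⟩ := h
      obtain ⟨k2, hk2⟩ := h'
      have e1 : H.ip s a = 3 * k1 + 1 := by linarith
      rw [e1]
      exact ⟨k2 - H.ip v a * k1, by linarith⟩
    · refine ⟨-s, hs.neg, h, fun h' => hcon ?_⟩
      rw [ip_neg_left] at h
      rw [ip_neg_right] at h'
      obtain ⟨k1, hk1⟩ := h
      obtain ⟨k2, hk2⟩ := h'
      have e1 : H.ip s a = -(3 * k1 + 1) := by linarith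
      rw [e1]
      exact ⟨-k2 + H.ip v a * k1, by linarith⟩
  obtain ⟨c1, c2⟩ := o.coh10 hv h10 hs ha hsa hsv
  -- a third class
  obtain ⟨t, ht⟩ := o.five
  obtain ⟨i, -, -, hi, -⟩ := exists_two ht {s, a} (by
    have := Finset.card_le_two (a := s) (b := a)
    omega)
  obtain ⟨g, hg, hga, hgs⟩ : ∃ g, Scroll H g ∧ (3 : ℤ) ∣ H.ip g a - 1 ∧ (g ≠ s ∧ g ≠ a) := by
    have p1 := hi s (by simp)
    have p2 := hi a (by simp)
    rcases nrm _ (ht.1 i) with h | h
    · exact ⟨t i, ht.1 i, h, fun h => p1.1 h.symm, fun h => p2.1 h.symm⟩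
    · exact ⟨-t i, (ht.1 i).neg, h, fun h => p1.2 h.symm, fun h => p2.2 h.symm⟩
  have hgs3 := prod g s hg hs hga hsa
  have v1 := o.vals10 hv h10 hg
  -- products of normalised classes
  have val2 : ∀ f g, Scroll H f → Scroll H g → f ≠ g → (3 : ℤ) ∣ H.ip f g - 1 →
      H.ip f g = 1 ∨ H.ip f g = -2 := by
    intro f g hf hg hne h
    rcases c.cases hf hg with ⟨h', -⟩ | ⟨-, h'⟩ | h'
    · exact absurd h' hne
    · omega
    · omega
  have sum2 : ∀ f g, Scroll H f → Scroll H g → H.ip f g = -2 → Scroll H (-(f + g)) := by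
    intro f g hf hg h
    refine Scroll.neg (scroll_of (hf.prim.add hg.prim) ?_)
    rw [ip_add_left, ip_add_right, ip_add_right, hH.comm g f, hf.2.2, hg.2.2, h]
    norm_num
  have nrm4 : ∀ p q r : ℤ, (p = 1 ∨ p = -1) → (q = 1 ∨ q = -1) → (r = 1 ∨ r = -1) →
      H.ip v s = p → H.ip v a = q → H.ip v g = r → H.ip s a = 1 →
      22 - 6 + 2 * (p * q) + 2 * (p * r * H.ip s g) + 2 * (q * r * H.ip a g) ≠ 14 := by
    intro p q r hp hq hr e1 e2 e3 e4
    refine (c.n4 hv hs.prim ha.prim hg.prim 1 (-p) (-q) (-r) ?_).2.2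
    rw [h10, hs.2.2, ha.2.2, hg.2.2, e1, e2, e3, e4]
    rcases hp with rfl | rfl <;> rcases hq with rfl | rfl <;> rcases hr with rfl | rfl <;> ring
  by_cases hcg : (3 : ℤ) ∣ H.ip v g - H.ip v a
  · -- the residue of `g` is that of `a`
    have hne : ¬ (3 : ℤ) ∣ H.ip v s - H.ip v g := by
      intro h
      exact hsv (by have := dvd_add h hcg; rwa [sub_add_sub_cancel] at this)
    obtain ⟨d1, d2⟩ := o.coh10 hv h10 hs hg (by rwa [hH.comm s g]) hne
    rcases val2 g a hg ha hgs.2 hga with e | e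
    · have := nrm4 (H.ip v s) (H.ip v a) (H.ip v g) (by omega) (by omega) (by omega) rfl rfl rfl
        c1
      rw [d1, hH.comm a g, e] at this
      rcases c2 with c2 | c2 <;> rcases d2 with d2 | d2 <;> rw [c2.1, c2.2] at this <;>
        (rw [d2.2] at this; norm_num at this)
    · -- `-(g + a)`
      have hu := sum2 g a hg ha e
      have e1 : H.ip s (-(g + a)) = -2 := by
        rw [ip_neg_right, ip_add_right, d1, c1]
        norm_num
      have e2 : H.ip v (-(g + a)) = -(H.ip v g + H.ip v a) := by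
        rw [ip_neg_right, ip_add_right]
      obtain ⟨f1, -⟩ := o.coh10 hv h10 hs hu (by rw [e1]; norm_num) (by
        rw [e2]
        rcases c2 with c2 | c2 <;> rcases d2 with d2 | d2 <;> omega)
      omega
  · obtain ⟨d1, d2⟩ := o.coh10 hv h10 hg ha hga hcg
    rcases val2 g s hg hs hgs.1 hgs3 with e | e
    · have := nrm4 (H.ip v s) (H.ip v a) (H.ip v g) (by omega) (by omega) (by omega) rfl rfl rfl
        c1
      rw [hH.comm s g, hH.comm a g, d1, e] at this
      rcases c2 with c2 | c2 <;> rcases d2 with d2 | d2 <;> rw [c2.1, c2.2] at this <;>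
        (rw [d2.1] at this; norm_num at this)
    · have hu := sum2 g s hg hs e
      have e1 : H.ip (-(g + s)) a = -2 := by
        rw [ip_neg_left, ip_add_left, d1, c1]
        norm_num
      have e2 : H.ip v (-(g + s)) = -(H.ip v g + H.ip v s) := by
        rw [ip_neg_right, ip_add_right]
      obtain ⟨f1, -⟩ := o.coh10 hv h10 hu ha (by rw [e1]; norm_num) (by
        rw [e2]
        rcases c2 with c2 | c2 <;> rcases d2 with d2 | d2 <;> omega)
      omega

end Odd3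

end Pool.Agent.Run7.h971.SC
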