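import Pool.Agent.Run7.h971.SC.Odd12

/-!
# Twelve independent scroll classes, two of which have an odd product: end of the proof
-/

set_option autoImplicit false

namespace Pool.Agent.Run7.h971.SC

open Finset Module Pool.Agent.Y95.Q Pool.Agent.Y95.Q.H4

variable {X : CubicFourfold} {H : H4 X}

/-- rounding one coordinate, refined -/
theorem round_one' {a b d m r K : ℤ} (hm : 0 < m) (hr : 0 ≤ r) (hrm : r < m) (hd : 0 ≤ d)
    (hK : 4 * (r * (m - r)) ≤ K) :
    4 * (a + 2 * r * b + r ^ 2 * d) ≤ 4 * a + K * d ∨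
      4 * (a + 2 * (r - m) * b + (r - m) ^ 2 * d) ≤ 4 * a + K * d := by
  by_contra hcon
  push Not at hcon
  obtain ⟨h1, h2⟩ := hcon
  have h3 : 0 < (m - r) * (4 * (a + 2 * r * b + r ^ 2 * d) - (4 * a + K * d)) :=
    mul_pos (by omega) (by omega)
  have h4 : 0 ≤ r * (4 * (a + 2 * (r - m) * b + (r - m) ^ 2 * d) - (4 * a + K * d)) :=
    mul_nonneg hr (by omega)
  have h5 : (m - r) * (4 * (a + 2 * r * b + r ^ 2 * d) - (4 * a + K * d)) +
      r * (4 * (a + 2 * (r - m) * b + (r - m) ^ 2 * d) - (4 * a + K * d)) =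
      -(m * d * (K - 4 * (r * (m - r)))) := by ring
  have h6 : 0 ≤ m * d * (K - 4 * (r * (m - r))) :=
    mul_nonneg (mul_nonneg hm.le hd) (by omega)
  omega

theorem rounding' (hH : H.IsCohomology) {m K : ℤ} (hm : 0 < m)
    (hK : ∀ r, 4 * (r * (m - r)) ≤ K) : ∀ (n : ℕ)
    (t : Fin n → Fin 23 → ℤ), (∀ i, 0 ≤ H.disc (t i)) → ∀ c : Fin n → ℤ, ∃ k : Fin n → ℤ,
      4 * H.disc (∑ i, (c i - m * k i) • t i) ≤ K * ∑ i, H.disc (t i) := by
  intro n
  induction n with
  | zero =>
    intro t _ c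
    refine ⟨0, ?_⟩
    have : H.disc (0 : Fin 23 → ℤ) = 0 := by
      unfold disc
      rw [ip_zero_left, ip_zero_right]
      norm_num
    simp [this]
  | succ n ih =>
    intro t ht c
    obtain ⟨k, hk⟩ := ih (fun i => t i.succ) (fun i => ht _) fun i => c i.succ
    set u := ∑ i : Fin n, (c i.succ - m * k i) • t i.succ with hu
    set r := c 0 % m with hr
    have r0 : 0 ≤ r := Int.emod_nonneg _ hm.ne'
    have r1 : r < m := Int.emod_lt_of_pos _ hm
    have hq : c 0 - m * (c 0 / m) = r := by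
      rw [hr, Int.emod_def]
    have hsum : ∀ q : ℤ, ∑ i : Fin (n + 1), (c i - m * (Fin.cons q k : Fin (n + 1) → ℤ) i) • t i
        = u + (c 0 - m * q) • t 0 := by
      intro q
      rw [Fin.sum_univ_succ, Fin.cons_zero]
      simp only [Fin.cons_succ]
      rw [hu, add_comm]
    have hs2 : ∑ i : Fin (n + 1), H.disc (t i) =
        H.disc (t 0) + ∑ i : Fin n, H.disc (t i.succ) := Fin.sum_univ_succ _
    rcases round_one' (a := H.disc u) (b := Bf H u (t 0)) (d := H.disc (t 0)) hm r0 r1 (ht 0)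
      (hK r) with h | h
    · refine ⟨Fin.cons (c 0 / m) k, ?_⟩
      rw [hsum, hq, disc_add_smul hH, hs2, mul_add K]
      linarith
    · refine ⟨Fin.cons (c 0 / m + 1) k, ?_⟩
      have hq' : c 0 - m * (c 0 / m + 1) = r - m := by rw [mul_add, ← sub_sub, hq, mul_one]
      rw [hsum, hq', disc_add_smul hH, hs2, mul_add K]
      linarith

/-- reduction of classes with an odd denominator -/
theorem reduce_odd (hH : H.IsCohomology) {t : Fin 12 → Fin 23 → ℤ}
    (ht : ∀ i, Scroll H (t i)) {v : Fin 23 → ℤ} {m c0 : ℤ} {c : Fin 12 → ℤ} (hm : 0 < m)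
    (ho : m % 2 = 1) (e : m • v = c0 • H.h + ∑ i, c i • t i) :
    ∃ k : Fin 12 → ℤ, H.disc (v - ∑ i, k i • t i) < 36 := by
  obtain ⟨k, hk⟩ := rounding' hH (K := m ^ 2 - 1) hm (fun r => by
    obtain ⟨j, hj⟩ : ∃ j, m = 2 * j + 1 := ⟨m / 2, by omega⟩
    have h1 : 0 ≤ (j - r) * (j - r + 1) := by
      rcases le_or_gt 0 (j - r) with h | h
      · exact mul_nonneg h (by omega)
      · exact mul_nonneg_of_nonpos_of_nonpos h.le (by omega)
    rw [hj]
    nlinarith [h1]) 12 t
    (fun i => Pool.Agent.X328.CF.disc_nonneg hH (ht i).1) c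
  refine ⟨k, ?_⟩
  have e1 : m • (v - ∑ i, k i • t i) = c0 • H.h + ∑ i, (c i - m * k i) • t i := by
    rw [smul_sub, e, smul_sum]
    simp only [sub_smul, sum_sub_distrib, mul_smul]
    abel
  have e2 : H.disc (m • (v - ∑ i, k i • t i)) = m ^ 2 * H.disc (v - ∑ i, k i • t i) := by
    have := hH.disc_comb m 0 (v - ∑ i, k i • t i)
    rwa [zero_smul, add_zero] at this
  rw [e1, disc_add_h hH] at e2
  rw [e2, Finset.sum_congr rfl fun i _ => disc_scroll hH (ht i)] at hk
  simp only [sum_const, card_univ, Fintype.card_fin, nsmul_eq_mul] at hk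
  by_contra hcon
  push Not at hcon
  have h3 : m ^ 2 * 36 ≤ m ^ 2 * H.disc (v - ∑ i, k i • t i) :=
    mul_le_mul_of_nonneg_left hcon (by positivity)
  push_cast at hk
  linarith

namespace Odd3

/-- products of a class of discriminant `32` -/
theorem vals11 (o : Odd3 H) {y s : Fin 23 → ℤ} (hy : H.IsHodge y) (h1 : H.ip y H.h = 1)
    (h11 : H.ip y y = 11) (hs : Scroll H s) :
    H.ip y s = 0 ∨ H.ip y s = 2 ∨ H.ip y s = -2 := by
  have c := o.toCtx
  have hd : H.disc y = 32 := by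
    unfold disc
    rw [c.hH.comm H.h y, h1, h11]
    norm_num
  have pos : ∀ s, Scroll H s → H.ip y s ≠ 4 ∧ H.ip y s ≠ 6 := by
    intro s hs
    have hh : H.ip (y - s) H.h = 1 := by rw [ip_sub_left, hs.2.1, h1, sub_zero]
    have hn : H.ip (y - s) (y - s) = 15 - 2 * H.ip y s := by
      rw [ip_sub_left, ip_sub_right, ip_sub_right, c.hH.comm s y, hs.2.2, h11]
      ring
    exact ⟨fun h => o.seven' (H.isHodge_sub hy hs.1) hh (by rw [hn, h]; norm_num),
      fun h => o.hnp _ ⟨H.isHodge_sub hy hs.1, hh, by rw [hn, h]; norm_num⟩⟩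
  have k1 := c.d2 hy hs.1 1 1 rfl
  have k2 := c.d2 hy hs.1 1 (-1) rfl
  have eB : Bf H y s = 3 * H.ip y s := by
    rw [Bf_comm c.hH, Bf_scroll hs, c.hH.comm s y]
  rw [hd, disc_scroll c.hH hs, eB] at k1 k2
  have p1 := pos s hs
  have p2 := pos (-s) hs.neg
  rw [ip_neg_right] at p2
  have b : -7 ≤ H.ip y s ∧ H.ip y s ≤ 7 := by omega
  obtain ⟨b1, b2⟩ := b
  generalize H.ip y s = p at *
  interval_cases p <;> omega

theorem even11 (o : Odd3 H) {y s s' : Fin 23 → ℤ} (hy : H.IsHodge y) (h1 : H.ip y H.h = 1)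
    (h11 : H.ip y y = 11) (hs : Scroll H s) (hs' : Scroll H s') (h0 : H.ip y s ≠ 0) :
    H.ip s s' % 2 = 0 := by
  have c := o.toCtx
  have key : ∀ s, Scroll H s → H.ip y s = 2 → H.ip s s' % 2 = 0 := by
    intro s hs h2
    have hh : H.ip (y - s) H.h = 1 := by rw [ip_sub_left, hs.2.1, h1, sub_zero]
    have hn : H.ip (y - s) (y - s) = 11 := by
      rw [ip_sub_left, ip_sub_right, ip_sub_right, c.hH.comm s y, hs.2.2, h11, h2]
      norm_num
    have e1 := o.vals11 (H.isHodge_sub hy hs.1) hh hn hs'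
    have e2 := o.vals11 hy h1 h11 hs'
    rw [ip_sub_left] at e1
    omega
  rcases o.vals11 hy h1 h11 hs with h | h | h
  · exact absurd h h0
  · exact key s hs h
  · have := key (-s) hs.neg (by rw [ip_neg_right, h, neg_neg])
    rw [ip_neg_left] at this
    omega

/-- there is no class of discriminant `32` in the span -/
theorem no11 (o : Odd3 H) {n : ℕ} (hn : 3 ≤ n) {t : Fin n → Fin 23 → ℤ}
    (ht : ∀ i, Scroll H (t i))
    (hli : LinearIndependent ℤ t) {y : Fin 23 → ℤ} (hy : H.IsHodge y) (hr : Rep H t y)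
    (h1 : H.ip y H.h = 1) (h11 : H.ip y y = 11) : False := by
  classical
  have c := o.toCtx
  have hH := c.hH
  obtain ⟨a, ha, -, h3⟩ := o.t3'
  -- a class with nonzero product
  obtain ⟨i, hi⟩ : ∃ i, H.ip y (t i) ≠ 0 := by
    by_contra hno
    push Not at hno
    obtain ⟨m, c0, cc, hm, e⟩ := hr
    have hd : H.disc y = 32 := by
      unfold disc
      rw [hH.comm H.h y, h1, h11]
      norm_num
    have e1 : Bf H y (m • y) = m * 32 := by
      rw [Bf_smul_right hH, ← disc_eq_Bf hH, hd]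
    have e2 : Bf H y (m • y) = 0 := by
      rw [e, Bf_add_right hH, Bf_smul_right hH, Bf_comm hH, Bf_h_left hH]
      have : Bf H y (∑ i, cc i • t i) = 0 := by
        unfold Bf
        rw [ip_sum_right, ip_sum_left, Finset.sum_eq_zero, Finset.sum_eq_zero]
        · ring
        · intro x _
          rw [ip_smul_left, (ht x).2.1, mul_zero]
        · intro x _
          rw [ip_smul_right, hno x, mul_zero]
      rw [this]
      ring
    omega
  -- the product of two other classes is even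
  have hpair : ∀ j k, j ≠ k → i ≠ j → i ≠ k → H.ip (t j) (t k) % 2 = 0 := by
    intro j k hjk hij hik
    by_cases h0 : H.ip y (t j) = 0
    · have e1 := o.even11 hy h1 h11 (ht i) (ht j) hi
      have e2 := o.even11 hy h1 h11 (ht i) (ht k) hi
      have e3 := h3 _ _ (ht i) (ht j)
      have e4 := h3 _ _ (ht i) (ht i)
      have e5 := h3 _ _ (ht j) (ht j)
      rw [(ht i).2.2] at e4
      rw [(ht j).2.2] at e5
      have hb := c.bound (ht i) (ht j) ((pairs_of_indep ht hli).2 i j hij).1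
        ((pairs_of_indep ht hli).2 i j hij).2
      have hne : H.ip (t i) (t j) ≠ 0 := by
        intro h
        rw [h, zero_sub, dvd_neg] at e3
        rcases Int.prime_three.dvd_or_dvd e3 with h | h
        · have := h.mul_right (H.ip (t i) a)
          omega
        · have := h.mul_right (H.ip (t j) a)
          omega
      have h2 : H.ip (t i) (t j) = 2 ∨ H.ip (t i) (t j) = -2 := by omega
      rcases h2 with h2 | h2
      · have hu : Scroll H (t i - t j) := scroll_of ((ht i).prim.sub (ht j).prim) (by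
          rw [ip_sub_left, ip_sub_right, ip_sub_right, hH.comm (t j) (t i), (ht i).2.2,
            (ht j).2.2, h2]
          norm_num)
        have := o.even11 hy h1 h11 hu (ht k) (by rw [ip_sub_right, h0, sub_zero]; exact hi)
        rw [ip_sub_left] at this
        omega
      · have hu : Scroll H (t i + t j) := scroll_of ((ht i).prim.add (ht j).prim) (by
          rw [ip_add_left, ip_add_right, ip_add_right, hH.comm (t j) (t i), (ht i).2.2,
            (ht j).2.2, h2]
          norm_num)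
        have := o.even11 hy h1 h11 hu (ht k) (by rw [ip_add_right, h0, add_zero]; exact hi)
        rw [ip_add_left] at this
        omega
    · exact o.even11 hy h1 h11 (ht j) (ht k) h0
  -- two more indices
  obtain ⟨j, k, hjk, hij, hik⟩ : ∃ j k, j ≠ k ∧ i ≠ j ∧ i ≠ k := by
    have h : 1 < (univ.erase i : Finset (Fin n)).card := by
      rw [card_erase_of_mem (mem_univ _), card_univ, Fintype.card_fin]
      omega
    obtain ⟨j, hj, k, hk, hjk⟩ := Finset.one_lt_card.1 h
    rw [mem_erase] at hj hk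
    exact ⟨j, k, hjk, hj.1.symm, hk.1.symm⟩
  have p1 := hpair j k hjk hij hik
  have p2 := o.even11 hy h1 h11 (ht i) (ht j) hi
  have p3 := o.even11 hy h1 h11 (ht i) (ht k) hi
  -- normalise
  have hex : ∀ x, ∃ ε : ℤ, (ε = 1 ∨ ε = -1) ∧ (3 : ℤ) ∣ ε * H.ip (t x) a - 1 := by
    intro x
    have e := h3 _ _ (ht x) (ht x)
    rw [(ht x).2.2] at e
    have h1 : (3 : ℤ) ∣ (H.ip (t x) a - 1) * (H.ip (t x) a + 1) := by
      obtain ⟨k, hk⟩ := e
      exact ⟨1 - k, by linarith⟩
    rcases Int.prime_three.dvd_or_dvd h1 with h | h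
    · exact ⟨1, Or.inl rfl, by rwa [one_mul]⟩
    · exact ⟨-1, Or.inr rfl, by
        obtain ⟨k, hk⟩ := h
        exact ⟨-k, by linarith⟩⟩
  choose ε hε hεa using hex
  have hval : ∀ x z, x ≠ z → H.ip (t x) (t z) % 2 = 0 →
      (ε x * ε z) * H.ip (t x) (t z) = -2 := by
    intro x z hxz h
    have hb := c.bound (ht x) (ht z) ((pairs_of_indep ht hli).2 x z hxz).1
      ((pairs_of_indep ht hli).2 x z hxz).2
    obtain ⟨k1, hk1⟩ := h3 _ _ (ht x) (ht z)
    obtain ⟨k2, hk2⟩ := hεa x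
    obtain ⟨k3, hk3⟩ := hεa z
    have e1 : H.ip (t x) (t z) = H.ip (t x) a * H.ip (t z) a + 3 * k1 := by linarith
    have e2 : (ε x * ε z) * H.ip (t x) (t z) =
        1 + 3 * (k2 + k3 + 3 * k2 * k3 + ε x * ε z * k1) := by
      rw [e1]
      have : (ε x * ε z) * (H.ip (t x) a * H.ip (t z) a + 3 * k1) =
          (ε x * H.ip (t x) a) * (ε z * H.ip (t z) a) + 3 * (ε x * ε z * k1) := by ring
      rw [this, show ε x * H.ip (t x) a = 3 * k2 + 1 by linarith,
        show ε z * H.ip (t z) a = 3 * k3 + 1 by linarith]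
      ring
    generalize k2 + k3 + 3 * k2 * k3 + ε x * ε z * k1 = K at e2
    generalize H.ip (t x) (t z) = p at *
    have hp : p = 0 ∨ p = 2 ∨ p = -2 := by omega
    rcases hε x with h1 | h1 <;> rcases hε z with h2 | h2 <;> rw [h1, h2] at e2 ⊢ <;>
      rcases hp with rfl | rfl | rfl <;> omega
  have q1 := hval j k hjk p1
  have q2 := hval i j hij p2
  have q3 := hval i k hik p3
  have hsq : ∀ x, ε x * ε x = 1 := by
    intro x
    rcases hε x with h | h <;> rw [h] <;> norm_num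
  have hz : ε i • t i + ε j • t j + ε k • t k = 0 := by
    refine c.eq_zero (H.isHodge_add (H.isHodge_add (H.isHodge_smul _ (ht i).1)
      (H.isHodge_smul _ (ht j).1)) (H.isHodge_smul _ (ht k).1)) ?_
    rw [c.e3, (ht i).2.2, (ht j).2.2, (ht k).2.2]
    have r1 : 2 * (ε i * ε j) * H.ip (t i) (t j) = 2 * (ε i * ε j * H.ip (t i) (t j)) := by ring
    have r2 : 2 * (ε i * ε k) * H.ip (t i) (t k) = 2 * (ε i * ε k * H.ip (t i) (t k)) := by ring
    have r3 : 2 * (ε j * ε k) * H.ip (t j) (t k) = 2 * (ε j * ε k * H.ip (t j) (t k)) := by ring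
    rw [r1, r2, r3, q1, q2, q3, sq, sq, sq, hsq, hsq, hsq]
    norm_num
  have := indep_three hli hij hik hjk hz
  rcases hε i with h | h <;> omega

/-- the property of the classes modulo three -/
def Q (H : H4 X) (a y : Fin 23 → ℤ) : Prop :=
  (3 : ℤ) ∣ H.ip y H.h ∧ (∀ s, Scroll H s → (3 : ℤ) ∣ H.ip y s - H.ip y a * H.ip s a) ∧
    (3 : ℤ) ∣ H.ip y y - H.ip y a * H.ip y a

theorem Q_small (o : Odd3 H) {a : Fin 23 → ℤ} (ha : Scroll H a)
    (h3 : ∀ e f, Scroll H e → Scroll H f → (3 : ℤ) ∣ H.ip e f - H.ip e a * H.ip f a)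
    {n : ℕ} (hn : 3 ≤ n) {t : Fin n → Fin 23 → ℤ} (ht : ∀ i, Scroll H (t i)) (hli : LinearIndependent ℤ t)
    {w : Fin 23 → ℤ} (hw : H.IsHodge w) (hr : Rep H t w) (hd : H.disc w < 36) :
    Q H a w := by
  have c := o.toCtx
  have hH := c.hH
  have h0 := c.d hw
  -- classes of degree prime to three
  have hm : H.disc w % 3 = 0 := by
    by_contra hcon
    obtain ⟨ε, k, g, hε, e, hg, hgh, hgn⟩ := norm1 hH hw (by omega)
    have hgr : Rep H t g := by
      have e1 : g = ε • w + (-(ε * k)) • H.h := by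
        rw [e, smul_add, ← mul_smul, ← mul_smul, neg_smul, add_assoc, add_neg_cancel, add_zero]
        rcases hε with rfl | rfl <;> simp
      rw [e1]
      exact (hr.smul _).add (Rep.h.smul _)
    have e8 : H.disc w ≠ 8 := fun h8 => o.hnp g ⟨hg, hgh, by omega⟩
    have e20 : H.disc w ≠ 20 := fun h20 => o.seven' hg hgh (by omega)
    have e32 : H.disc w ≠ 32 := fun h32 => o.no11 hn ht hli hg hgr hgh (by omega)
    omega
  obtain ⟨k, g, e, hg, hgn⟩ := norm0 hH hw hm
  have e8 : H.ip g g ≠ 8 := o.eight' hg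
  have e14 := c.n hg
  have hcase : H.ip g g = 0 ∨ H.ip g g = 4 ∨ H.ip g g = 6 ∨ H.ip g g = 10 := by omega
  have hkey : (∀ s, Scroll H s → (3 : ℤ) ∣ H.ip g s - H.ip g a * H.ip s a) ∧
      (3 : ℤ) ∣ H.ip g g - H.ip g a * H.ip g a := by
    rcases hcase with h | h | h | h
    · rw [c.eq_zero hg.1 h]
      refine ⟨fun s _ => ?_, ?_⟩
      · rw [ip_zero_left, ip_zero_left]
        norm_num
      · rw [ip_zero_left, ip_zero_left]
        norm_num
    · have hgs := scroll_of hg h
      exact ⟨fun s hs => h3 g s hgs hs, h3 g g hgs hgs⟩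
    · have h6 := fun s (hs : Scroll H s) => Int.dvd_of_emod_eq_zero (o.six' hg h hs)
      refine ⟨fun s hs => ?_, ?_⟩
      · exact dvd_sub (h6 s hs) ((h6 a ha).mul_right _)
      · rw [h]
        exact dvd_sub (by norm_num) ((h6 a ha).mul_right _)
    · refine ⟨fun s hs => o.ten3 ha h3 hg h hs, ?_⟩
      have h1 := (o.vals10 hg h ha).1
      rw [h]
      generalize H.ip g a = x at h1
      have hx : x % 3 = 1 ∨ x % 3 = 2 := by omega
      rcases hx with hx | hx
      · obtain ⟨k, hk⟩ : ∃ k, x = 3 * k + 1 := ⟨x / 3, by omega⟩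
        exact ⟨3 - 3 * k ^ 2 - 2 * k, by rw [hk]; ring⟩
      · obtain ⟨k, hk⟩ : ∃ k, x = 3 * k + 2 := ⟨x / 3, by omega⟩
        exact ⟨2 - 3 * k ^ 2 - 4 * k, by rw [hk]; ring⟩
  have hha : H.ip H.h a = 0 := by rw [hH.comm, ha.2.1]
  have ea : H.ip w a = H.ip g a := by rw [e, ip_add_left, ip_smul_left, hha, mul_zero, add_zero]
  refine ⟨?_, fun s hs => ?_, ?_⟩
  · rw [e, ip_add_left, ip_smul_left, hg.2, hH.h_self]
    exact ⟨k, by ring⟩
  · have es : H.ip w s = H.ip g s := by
      rw [e, ip_add_left, ip_smul_left, hH.comm H.h s, hs.2.1, mul_zero, add_zero]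
    rw [ea, es]
    exact hkey.1 s hs
  · have ew : H.ip w w = H.ip g g + 3 * k ^ 2 := by
      rw [e]
      simp only [ip_add_left, ip_add_right, ip_smul_left, ip_smul_right, hg.2, hH.h_self,
        hH.comm H.h g]
      ring
    rw [ea, ew]
    obtain ⟨q, hq⟩ := hkey.2
    exact ⟨q + k ^ 2, by linarith⟩

theorem Q_add (o : Odd3 H) {a : Fin 23 → ℤ}
    (h3 : ∀ e f, Scroll H e → Scroll H f → (3 : ℤ) ∣ H.ip e f - H.ip e a * H.ip f a)
    {w t : Fin 23 → ℤ} (hw : Q H a w) (ht : Scroll H t) (k : ℤ) : Q H a (w + k • t) := by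
  have hH := o.hH
  obtain ⟨q1, q2, q3⟩ := hw
  refine ⟨?_, fun s hs => ?_, ?_⟩
  · rw [ip_add_left, ip_smul_left, ht.2.1, mul_zero, add_zero]
    exact q1
  · obtain ⟨x, hx⟩ := q2 s hs
    obtain ⟨y, hy⟩ := h3 t s ht hs
    rw [ip_add_left, ip_smul_left, ip_add_left, ip_smul_left]
    exact ⟨x + k * y, by linear_combination hx + k * hy⟩
  · obtain ⟨x, hx⟩ := q2 t ht
    obtain ⟨y, hy⟩ := h3 t t ht ht
    obtain ⟨z, hz⟩ := q3
    simp only [ip_add_left, ip_add_right, ip_smul_left, ip_smul_right, hH.comm t w]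
    exact ⟨z + 2 * k * x + k ^ 2 * y, by linear_combination hz + 2 * k * hx + k ^ 2 * hy⟩

theorem Q_add_sum (o : Odd3 H) {a : Fin 23 → ℤ}
    (h3 : ∀ e f, Scroll H e → Scroll H f → (3 : ℤ) ∣ H.ip e f - H.ip e a * H.ip f a)
    {n : ℕ} {t : Fin n → Fin 23 → ℤ} (ht : ∀ i, Scroll H (t i)) (k : Fin n → ℤ)
    {w : Fin 23 → ℤ} (hw : Q H a w) (s : Finset (Fin n)) :
    Q H a (w + ∑ i ∈ s, k i • t i) := by
  classical
  induction s using Finset.induction_on with
  | empty => simpa using hw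
  | insert b s hb ih =>
    have e : w + ∑ i ∈ insert b s, k i • t i = (w + ∑ i ∈ s, k i • t i) + k b • t b := by
      rw [sum_insert hb]
      abel
    rw [e]
    exact o.Q_add h3 ih (ht b) _

/-- **odd products** -/
theorem scrolls_odd (o : Odd3 H) {t : Fin 12 → Fin 23 → ℤ} (ht : ∀ i, Scroll H (t i))
    (hli : LinearIndependent ℤ (Fin.cons H.h t : Fin 13 → Fin 23 → ℤ)) : False := by
  classical
  have c := o.toCtx
  have hH := c.hH
  have hli' : LinearIndependent ℤ t := hli.comp Fin.succ (Fin.succ_injective _)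
  obtain ⟨a, ha, -, h3⟩ := o.t3'
  have htH : ∀ i, H.IsHodge (t i) := fun i => (ht i).1
  -- all classes of the saturation
  have hQ : ∀ y ∈ satM H t, Q H a y := by
    rintro y ⟨hy, m, c0, cc, hm, e⟩
    -- write `m` as a power of three times a number prime to three
    obtain ⟨j, m', hm', rfl⟩ : ∃ (j : ℕ) (m' : ℤ), ¬ (3 : ℤ) ∣ m' ∧ m = 3 ^ j * m' := by
      have h1 := Nat.exists_eq_pow_mul_and_not_dvd (n := m.toNat) (by omega) 3 (by norm_num)
      obtain ⟨j, m', h2, h4⟩ := h1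
      refine ⟨j, m', fun h => h2 (by exact_mod_cast h), ?_⟩
      have : (m.toNat : ℤ) = m := Int.toNat_of_nonneg hm.le
      rw [← this, h4]
      push_cast
      ring
    have e' : (3 ^ j : ℤ) • (m' • y) = c0 • H.h + ∑ i, cc i • t i := by
      rw [← mul_smul, e]
    have hodd : (3 ^ j : ℤ) % 2 = 1 := by
      have : Odd ((3 : ℤ) ^ j) := Odd.pow (by decide)
      exact Int.odd_iff.1 this
    obtain ⟨k, hk⟩ := reduce_odd hH ht (by positivity) hodd e'
    have hy' : H.IsHodge (m' • y) := H.isHodge_smul _ hy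
    have hrep : Rep H t (m' • y) := ⟨3 ^ j, c0, cc, by positivity, e'⟩
    have hs : ∑ i, k i • t i ∈ satM H t :=
      Submodule.sum_mem _ fun i _ => Submodule.smul_mem _ _ (sat_gen htH i)
    have hmem : m' • y - ∑ i, k i • t i ∈ satM H t := Submodule.sub_mem _ ⟨hy', hrep⟩ hs
    have q1 := o.Q_small ha h3 (n := 12) (by norm_num) ht hli' hmem.1 hmem.2 hk
    have q2 := o.Q_add_sum h3 ht k q1 univ
    rw [sub_add_cancel] at q2
    obtain ⟨r1, r2, r3⟩ := q2
    have hp : ∀ x : ℤ, (3 : ℤ) ∣ m' * x → (3 : ℤ) ∣ x := fun x h =>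
      (Int.prime_three.dvd_or_dvd h).resolve_left hm'
    refine ⟨hp _ ?_, fun s hs => hp _ ?_, hp _ (hp _ ?_)⟩
    · rwa [ip_smul_left] at r1
    · have := r2 s hs
      rw [ip_smul_left, ip_smul_left] at this
      rw [mul_sub]
      convert this using 1
      ring
    · simp only [ip_smul_left, ip_smul_right] at r3
      convert r3 using 1
      ring
  refine no_form hH htH hli Nat.prime_three a fun v hv w hw => ?_
  obtain ⟨-, -, x⟩ := hQ _ (Submodule.add_mem _ hv hw)
  obtain ⟨-, -, y⟩ := hQ v hv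
  obtain ⟨-, -, z⟩ := hQ w hw
  simp only [ip_add_left, ip_add_right, hH.comm w v] at x
  obtain ⟨x, hx⟩ := x
  obtain ⟨y, hy⟩ := y
  obtain ⟨z, hz⟩ := z
  have h6 : 2 * (H.ip v w - H.ip v a * H.ip w a) = 3 * (x - y - z) := by
    linear_combination hx - hy - hz
  push_cast
  omega

end Odd3

namespace Ctx

/-- **Twelve independent scroll classes.** -/
theorem scrolls_twelve (c : Ctx H) {t : Fin 12 → Fin 23 → ℤ} (ht : ∀ i, Scroll H (t i))
    (hli : LinearIndependent ℤ (Fin.cons H.h t : Fin 13 → Fin 23 → ℤ)) : False := by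
  have hli' : LinearIndependent ℤ t := hli.comp Fin.succ (Fin.succ_injective _)
  by_cases hnp : ∀ P, ¬ H.IsPl P
  · rcases c.split with hev | ⟨a, b, ha, hb, hab⟩
    · exact c.scrolls_even ht hli hev
    · exact Odd3.scrolls_odd ⟨c, hnp, ⟨_, (pairs_of_indep ht hli').cast (m := 5) (by norm_num)⟩,
        ⟨a, b, ha, hb, hab⟩⟩ ht hli
  · push Not at hnp
    obtain ⟨P, hP⟩ := hnp
    exact c.plane_twelve hP (fun i => Or.inr (ht i)) hli

/-- **Twelve independent classes of planes and scrolls.** -/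
theorem twelve (c : Ctx H) {t : Fin 12 → Fin 23 → ℤ} (ht : ∀ i, H.IsPl (t i) ∨ Scroll H (t i))
    (hli : LinearIndependent ℤ (Fin.cons H.h t : Fin 13 → Fin 23 → ℤ)) : False := by
  by_cases h : ∃ i, H.IsPl (t i)
  · obtain ⟨i, hi⟩ := h
    exact c.plane_twelve hi ht hli
  · push Not at h
    exact c.scrolls_twelve (fun i => (ht i).resolve_left (h i)) hli

end Ctx

end Pool.Agent.Run7.h971.SC
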