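import Pool.Agent.Run7.h971.SC.Final

/-!
# Classes which span the Hodge classes over the rational numbers
-/

set_option autoImplicit false

namespace Pool.Agent.Run7.h971.SC

open Finset Pool.Agent.Y95.Q Pool.Agent.Y95.Q.H4

variable {X : CubicFourfold} {H : H4 X}

/-- `h` and the classes in `S` span the rational Hodge classes -/
def SpansBy (H : H4 X) (S : Set (Fin 23 → ℤ)) : Prop :=
  ∀ v, H.IsHodge v → ∃ m : ℤ, m ≠ 0 ∧ m • v ∈ AddSubgroup.closure (insert H.h S)

theorem exists_last {P : ℕ → Prop} (N : ℕ) (h0 : P 0) (hb : ∀ n, P n → n ≤ N) :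
    ∃ n, P n ∧ ¬ P (n + 1) := by
  by_contra hcon
  push Not at hcon
  have : ∀ n, P n := by
    intro n
    induction n with
    | zero => exact h0
    | succ k ih => exact hcon k ih
  have := hb _ (this (N + 1))
  omega

/-- a basis from a spanning set -/
theorem exists_basis (hH : H.IsCohomology) {S : Set (Fin 23 → ℤ)} (hS : ∀ v ∈ S, H.IsHodge v)
    (hspan : SpansBy H S) : ∃ (n : ℕ) (t : Fin n → Fin 23 → ℤ), (∀ i, t i ∈ S) ∧
      n + 1 ≤ H.rank ∧ n + 1 ≤ 23 ∧ ∀ v, H.IsHodge v → ∃ (m c0 : ℤ) (c : Fin n → ℤ), 0 < m ∧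
        m • v = c0 • H.h + ∑ i, c i • t i := by
  classical
  let P : ℕ → Prop := fun n => ∃ t : Fin n → Fin 23 → ℤ, (∀ i, t i ∈ S) ∧
    LinearIndependent ℤ (Fin.cons H.h t : Fin (n + 1) → Fin 23 → ℤ)
  have hh0 : H.h ≠ 0 := by
    intro h
    have := hH.h_self
    rw [h, ip_zero_left] at this
    omega
  have h0 : P 0 := by
    refine ⟨Fin.elim0, fun i => i.elim0, ?_⟩
    rw [Fintype.linearIndependent_iff]
    intro g hg i
    rw [Fin.sum_univ_succ, Fin.cons_zero] at hg
    simp only [univ_eq_empty, sum_empty, add_zero] at hg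
    rcases smul_eq_zero.1 hg with h | h
    · have : i = 0 := Fin.ext (by have := i.isLt; simp only [Fin.val_zero]; omega)
      rw [this]
      exact h
    · exact absurd h hh0
  have hrk : ∀ n, P n → n + 1 ≤ 23 := by
    rintro n ⟨t, -, hli⟩
    have := hli.fintype_card_le_finrank
    simpa using this
  have hrk2 : ∀ n, P n → n + 1 ≤ H.rank := by
    rintro n ⟨t, ht, hli⟩
    have hmem : ∀ i : Fin (n + 1), (Fin.cons H.h t : Fin (n + 1) → Fin 23 → ℤ) i ∈
        Submodule.span ℤ {v | H.IsHodge v} := by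
      intro i
      refine Submodule.subset_span ?_
      refine Fin.cases ?_ (fun j => ?_) i
      · exact hH.h_hodge
      · exact hS _ (ht j)
    have hli' : LinearIndependent ℤ (fun i : Fin (n + 1) =>
        (⟨(Fin.cons H.h t : Fin (n + 1) → Fin 23 → ℤ) i, hmem i⟩ :
          Submodule.span ℤ {v | H.IsHodge v})) := by
      refine LinearIndependent.of_comp (Submodule.subtype _) ?_
      exact hli
    have := hli'.fintype_card_le_finrank
    simpa [H4.rank] using this
  obtain ⟨n, ⟨t, ht, hli⟩, hn⟩ := exists_last 22 h0 fun n hn => by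
    have := hrk n hn
    omega
  refine ⟨n, t, ht, hrk2 n ⟨t, ht, hli⟩, hrk n ⟨t, ht, hli⟩, ?_⟩
  -- elements of `S`
  have h1 : ∀ s ∈ insert H.h S, ∃ (m c0 : ℤ) (c : Fin n → ℤ), m ≠ 0 ∧
      m • s = c0 • H.h + ∑ i, c i • t i := by
    intro s hs
    rcases hs with rfl | hs
    · exact ⟨1, 1, 0, one_ne_zero, by simp⟩
    have hdep : ¬ LinearIndependent ℤ
        (Fin.cons H.h (Fin.cons s t) : Fin (n + 1 + 1) → Fin 23 → ℤ) := by
      intro h
      refine hn ⟨Fin.cons s t, fun i => ?_, h⟩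
      refine Fin.cases ?_ (fun j => ?_) i
      · exact hs
      · exact ht j
    rw [Fintype.not_linearIndependent_iff] at hdep
    obtain ⟨g, hg, i0, hi0⟩ := hdep
    rw [Fin.sum_univ_succ, Fin.sum_univ_succ] at hg
    simp only [Fin.cons_zero, Fin.cons_succ] at hg
    have hg1 : g (Fin.succ 0) ≠ 0 := by
      intro h
      rw [h, zero_smul, zero_add] at hg
      have hz := Fintype.linearIndependent_iff.1 hli
        (Fin.cons (g 0) fun j => g j.succ.succ) (by
          rw [Fin.sum_univ_succ]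
          simp only [Fin.cons_zero, Fin.cons_succ]
          exact hg)
      apply hi0
      refine Fin.cases ?_ (fun j => ?_) i0
      · exact hz 0
      · refine Fin.cases ?_ (fun k => ?_) j
        · exact h
        · exact hz k.succ
    refine ⟨-g (Fin.succ 0), g 0, fun j => g j.succ.succ, neg_ne_zero.2 hg1, ?_⟩
    rw [neg_smul]
    have : g 0 • H.h + ∑ j, g j.succ.succ • t j = -(g (Fin.succ 0) • s) := by
      rw [eq_neg_iff_add_eq_zero, ← hg]
      abel
    exact this.symm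
  have h2 : ∀ v ∈ AddSubgroup.closure (insert H.h S), ∃ (m c0 : ℤ) (c : Fin n → ℤ), m ≠ 0 ∧
      m • v = c0 • H.h + ∑ i, c i • t i := by
    intro v hv
    induction hv using AddSubgroup.closure_induction with
    | mem x hx => exact h1 x hx
    | zero => exact ⟨1, 0, 0, one_ne_zero, by simp⟩
    | add x y _ _ hx hy =>
      obtain ⟨m, c0, c, hm, e⟩ := hx
      obtain ⟨m', c0', c', hm', e'⟩ := hy
      refine ⟨m' * m, m' * c0 + m * c0', fun i => m' * c i + m * c' i, mul_ne_zero hm' hm, ?_⟩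
      have e1 : (m' * m) • (x + y) = m' • (m • x) + m • (m' • y) := by
        rw [smul_add, mul_smul, ← mul_smul m m', mul_comm m m']
      rw [e1, e, e']
      simp only [add_smul, mul_smul, smul_add, sum_add_distrib, smul_sum]
      abel
    | neg x _ hx =>
      obtain ⟨m, c0, c, hm, e⟩ := hx
      refine ⟨-m, c0, c, neg_ne_zero.2 hm, ?_⟩
      rw [neg_smul, smul_neg, neg_neg, e]
  intro v hv
  obtain ⟨m, hm, hmv⟩ := hspan v hv
  obtain ⟨m', c0, c, hm', e⟩ := h2 _ hmv
  have hne : m' * m ≠ 0 := mul_ne_zero hm' hm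
  rcases lt_or_gt_of_ne hne with h | h
  · refine ⟨-(m' * m), -c0, fun i => -c i, by omega, ?_⟩
    rw [neg_smul, mul_smul, e]
    simp only [neg_smul, sum_neg_distrib]
    abel
  · exact ⟨m' * m, c0, c, h, by rw [mul_smul, e]⟩

/-- rounding one coordinate -/
theorem round_one {a b d m r : ℤ} (hm : 0 < m) (hr : 0 ≤ r) (hrm : r < m) (hd : 0 ≤ d) :
    4 * (a + 2 * r * b + r ^ 2 * d) ≤ 4 * a + m ^ 2 * d ∨
      4 * (a + 2 * (r - m) * b + (r - m) ^ 2 * d) ≤ 4 * a + m ^ 2 * d := by
  by_contra hcon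
  push Not at hcon
  obtain ⟨h1, h2⟩ := hcon
  have h3 : 0 < (m - r) * (4 * (a + 2 * r * b + r ^ 2 * d) - (4 * a + m ^ 2 * d)) :=
    mul_pos (by omega) (by omega)
  have h4 : 0 ≤ r * (4 * (a + 2 * (r - m) * b + (r - m) ^ 2 * d) - (4 * a + m ^ 2 * d)) :=
    mul_nonneg hr (by omega)
  have h5 : (m - r) * (4 * (a + 2 * r * b + r ^ 2 * d) - (4 * a + m ^ 2 * d)) +
      r * (4 * (a + 2 * (r - m) * b + (r - m) ^ 2 * d) - (4 * a + m ^ 2 * d)) =
      -(m * d * (m - 2 * r) ^ 2) := by ring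
  have h6 : 0 ≤ m * d * (m - 2 * r) ^ 2 := mul_nonneg (mul_nonneg hm.le hd) (sq_nonneg _)
  omega

theorem disc_add_smul (hH : H.IsCohomology) (u t : Fin 23 → ℤ) (y : ℤ) :
    H.disc (u + y • t) = H.disc u + 2 * y * Bf H u t + y ^ 2 * H.disc t := by
  have := disc_two hH 1 y u t
  rw [one_smul] at this
  rw [this]
  ring

/-- rounding -/
theorem rounding (hH : H.IsCohomology) {m : ℤ} (hm : 0 < m) : ∀ (n : ℕ)
    (t : Fin n → Fin 23 → ℤ), (∀ i, 0 ≤ H.disc (t i)) → ∀ c : Fin n → ℤ, ∃ k : Fin n → ℤ,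
      4 * H.disc (∑ i, (c i - m * k i) • t i) ≤ m ^ 2 * ∑ i, H.disc (t i) := by
  intro n
  induction n with
  | zero =>
    intro t _ c
    refine ⟨0, ?_⟩
    have : H.disc (0 : Fin 23 → ℤ) = 0 := by
      unfold disc
      rw [ip_zero_left, ip_zero_right]
      norm_num
    simp [this]
  | succ n ih =>
    intro t ht c
    obtain ⟨k, hk⟩ := ih (fun i => t i.succ) (fun i => ht _) fun i => c i.succ
    set u := ∑ i : Fin n, (c i.succ - m * k i) • t i.succ with hu
    set r := c 0 % m with hr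
    have r0 : 0 ≤ r := Int.emod_nonneg _ hm.ne'
    have r1 : r < m := Int.emod_lt_of_pos _ hm
    have hq : c 0 - m * (c 0 / m) = r := by
      rw [hr, Int.emod_def]
    have hsum : ∀ q : ℤ, ∑ i : Fin (n + 1), (c i - m * (Fin.cons q k : Fin (n + 1) → ℤ) i) • t i
        = u + (c 0 - m * q) • t 0 := by
      intro q
      rw [Fin.sum_univ_succ, Fin.cons_zero]
      simp only [Fin.cons_succ]
      rw [hu, add_comm]
    have hs2 : ∑ i : Fin (n + 1), H.disc (t i) =
        H.disc (t 0) + ∑ i : Fin n, H.disc (t i.succ) := Fin.sum_univ_succ _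
    rcases round_one (a := H.disc u) (b := Bf H u (t 0)) (d := H.disc (t 0)) hm r0 r1 (ht 0)
      with h | h
    · refine ⟨Fin.cons (c 0 / m) k, ?_⟩
      rw [hsum, hq, disc_add_smul hH, hs2, mul_add (m ^ 2)]
      linarith
    · refine ⟨Fin.cons (c 0 / m + 1) k, ?_⟩
      have hq' : c 0 - m * (c 0 / m + 1) = r - m := by rw [mul_add, ← sub_sub, hq, mul_one]
      rw [hsum, hq', disc_add_smul hH, hs2, mul_add (m ^ 2)]
      linarith

theorem disc_add_h (hH : H.IsCohomology) (u : Fin 23 → ℤ) (c : ℤ) :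
    H.disc (c • H.h + u) = H.disc u := by
  rw [add_comm, disc_add_smul hH, Bf_comm hH, Bf_h_left hH]
  have : H.disc H.h = 0 := by
    rw [disc_eq_Bf hH, Bf_h_left hH]
  rw [this]
  ring

/-- small representatives modulo spanning classes -/
theorem reduce (hH : H.IsCohomology) {n : ℕ} {t : Fin n → Fin 23 → ℤ}
    (ht : ∀ i, H.IsHodge (t i)) {v : Fin 23 → ℤ}
    (hv : ∃ (m c0 : ℤ) (c : Fin n → ℤ), 0 < m ∧ m • v = c0 • H.h + ∑ i, c i • t i) :
    ∃ k : Fin n → ℤ, 4 * H.disc (v - ∑ i, k i • t i) ≤ ∑ i, H.disc (t i) := by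
  obtain ⟨m, c0, c, hm, e⟩ := hv
  obtain ⟨k, hk⟩ := rounding hH hm n t
    (fun i => Pool.Agent.X328.CF.disc_nonneg hH (ht i)) c
  refine ⟨k, ?_⟩
  have e1 : m • (v - ∑ i, k i • t i) = c0 • H.h + ∑ i, (c i - m * k i) • t i := by
    rw [smul_sub, e, smul_sum]
    simp only [sub_smul, sum_sub_distrib, mul_smul]
    abel
  have e2 : H.disc (m • (v - ∑ i, k i • t i)) = m ^ 2 * H.disc (v - ∑ i, k i • t i) := by
    have := hH.disc_comb m 0 (v - ∑ i, k i • t i)
    rwa [zero_smul, add_zero] at this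
  rw [e1, disc_add_h hH] at e2
  rw [e2] at hk
  have h3 : m ^ 2 * (4 * H.disc (v - ∑ i, k i • t i)) ≤ m ^ 2 * ∑ i, H.disc (t i) := by
    linarith
  exact le_of_mul_le_mul_left h3 (by positivity)

/-- classes which have even products with all Hodge classes -/
def Rad (H : H4 X) (x : Fin 23 → ℤ) : Prop :=
  4 ∣ H.disc x ∧ ∀ y, H.IsHodge y → Bf H x y % 2 = 0

theorem Rad.sum (hH : H.IsCohomology) {n : ℕ} {t : Fin n → Fin 23 → ℤ} (k : Fin n → ℤ)
    (hR : ∀ i, Rad H (t i)) (ht : ∀ i, H.IsHodge (t i)) : Rad H (∑ i, k i • t i) := by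
  classical
  have key : ∀ s : Finset (Fin n), Rad H (∑ i ∈ s, k i • t i) := by
    intro s
    induction s using Finset.induction_on with
    | empty =>
      rw [sum_empty]
      refine ⟨?_, fun y _ => ?_⟩
      · have : H.disc (0 : Fin 23 → ℤ) = 0 := by
          unfold disc
          rw [ip_zero_left, ip_zero_right]
          norm_num
        rw [this]
        exact dvd_zero _
      · unfold Bf
        rw [ip_zero_left, ip_zero_left]
        norm_num
    | insert a s ha ih =>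
      rw [sum_insert ha, add_comm]
      have hu : H.IsHodge (∑ i ∈ s, k i • t i) :=
        H.isHodge_sum _ _ fun i _ => H.isHodge_smul _ (ht i)
      refine ⟨?_, fun y hy => ?_⟩
      · rw [disc_add_smul hH]
        obtain ⟨p, hp⟩ := ih.1
        obtain ⟨q, hq⟩ := (hR a).1
        obtain ⟨r, hr⟩ := Int.dvd_of_emod_eq_zero (ih.2 _ (ht a))
        rw [hp, hq, hr]
        exact ⟨p + k a * r + k a ^ 2 * q, by ring⟩
      · rw [Bf_add_left, Bf_smul_left]
        have h1 := ih.2 y hy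
        have h2 := Int.dvd_of_emod_eq_zero ((hR a).2 y hy)
        have h3 := h2.mul_left (k a)
        omega
  exact key univ

theorem disc_mod_of_rad (hH : H.IsCohomology) {w s : Fin 23 → ℤ} (hw : H.IsHodge w)
    (hs : Rad H s) (h : 4 ∣ H.disc w) : 4 ∣ H.disc (w + s) := by
  have := disc_add_smul hH w s 1
  rw [one_smul] at this
  have h1 := hs.2 w hw
  rw [Bf_comm hH] at h1
  obtain ⟨p, hp⟩ := hs.1
  rw [this]
  omega

theorem disc_pl (hH : H.IsCohomology) {P : Fin 23 → ℤ} (hP : H.IsPl P) : H.disc P = 8 := by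
  unfold disc
  rw [hH.comm H.h P, hP.2.1, hP.2.2]
  norm_num

theorem disc_scroll (hH : H.IsCohomology) {t : Fin 23 → ℤ} (ht : Scroll H t) :
    H.disc t = 12 := by
  unfold disc
  rw [hH.comm H.h t, ht.2.1, ht.2.2]
  norm_num

theorem Bf_scroll {t : Fin 23 → ℤ} (ht : Scroll H t) (v : Fin 23 → ℤ) :
    Bf H t v = 3 * H.ip t v := by
  unfold Bf
  rw [ht.2.1]
  ring

/-- **The planes span.** -/
theorem planes_span (hL : IsLattice H)
    (hspan : SpansBy H (Set.range H.cl)) :
    Good H ∨ ∀ v, H.IsHodge v → 4 ∣ H.disc v := by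
  by_contra hcon
  push Not at hcon
  obtain ⟨hbad, v, hv, hv4⟩ := hcon
  have c : Ctx H := ctx_of hL hbad
  have hH := c.hH
  have hpl : ∀ x ∈ Set.range H.cl, H.IsPl x := by
    rintro x ⟨P, rfl⟩
    exact (hH.cl_range _).1 ⟨P, rfl⟩
  obtain ⟨n, t, ht, -, hn, hb⟩ := exists_basis hH (fun x hx => (hpl x hx).1) hspan
  have htP : ∀ i, H.IsPl (t i) := fun i => hpl _ (ht i)
  have hrad : ∀ i, Rad H (t i) := fun i =>
    ⟨by rw [disc_pl hH (htP i)]; norm_num, fun y hy => c.Bf_plane (htP i) hy⟩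
  obtain ⟨k, hk⟩ := reduce hH (fun i => (htP i).1) (hb v hv)
  rw [Finset.sum_congr rfl fun i _ => disc_pl hH (htP i)] at hk
  simp only [sum_const, card_univ, Fintype.card_fin, nsmul_eq_mul] at hk
  set s := ∑ i, k i • t i with hs
  have hsH : H.IsHodge s := H.isHodge_sum _ _ fun i _ => H.isHodge_smul _ (htP i).1
  have hw : H.IsHodge (v - s) := H.isHodge_sub hv hsH
  have hn' : (n : ℤ) ≤ 22 := by
    have : n ≤ 22 := by omega
    exact_mod_cast this
  have hw4 : 4 ∣ H.disc (v - s) := by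
    have h1 := c.d hw
    rcases Nat.eq_zero_or_pos n with h0 | h0
    · subst h0
      simp only [Nat.cast_zero, zero_mul] at hk
      have : H.disc (v - s) = 0 := by omega
      rw [this]
      exact dvd_zero _
    · have h2 := c.pl_two (htP ⟨0, h0⟩) hw
      omega
  have := disc_mod_of_rad hH hw (Rad.sum hH k hrad fun i => (htP i).1) hw4
  rw [← hs, sub_add_cancel] at this
  exact hv4 this

end Pool.Agent.Run7.h971.SC
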