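import Pool.Agent.Run7.h971.SC.Odd12b

/-!
# Planes and scroll classes which span the rational Hodge classes: all ranks
-/

set_option autoImplicit false

namespace Pool.Agent.Run7.h971.SC

open Finset Module Pool.Agent.Y95.Q Pool.Agent.Y95.Q.H4

variable {X : CubicFourfold} {H : H4 X}

/-- a basis from a spanning set, with independence -/
theorem exists_basis' (hH : H.IsCohomology) {S : Set (Fin 23 → ℤ)} (hS : ∀ v ∈ S, H.IsHodge v)
    (hspan : SpansBy H S) : ∃ (n : ℕ) (t : Fin n → Fin 23 → ℤ), (∀ i, t i ∈ S) ∧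
      LinearIndependent ℤ (Fin.cons H.h t : Fin (n + 1) → Fin 23 → ℤ) ∧ H.rank = n + 1 ∧
      ∀ v, H.IsHodge v → Rep H t v := by
  classical
  let P : ℕ → Prop := fun n => ∃ t : Fin n → Fin 23 → ℤ, (∀ i, t i ∈ S) ∧
    LinearIndependent ℤ (Fin.cons H.h t : Fin (n + 1) → Fin 23 → ℤ)
  have hh0 : H.h ≠ 0 := by
    intro h
    have := hH.h_self
    rw [h, ip_zero_left] at this
    omega
  have h0 : P 0 := by
    refine ⟨Fin.elim0, fun i => i.elim0, ?_⟩
    rw [Fintype.linearIndependent_iff]
    intro g hg i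
    rw [Fin.sum_univ_succ, Fin.cons_zero] at hg
    simp only [univ_eq_empty, sum_empty, add_zero] at hg
    rcases smul_eq_zero.1 hg with h | h
    · have : i = 0 := Fin.ext (by have := i.isLt; simp only [Fin.val_zero]; omega)
      rw [this]
      exact h
    · exact absurd h hh0
  have hrk : ∀ n, P n → n + 1 ≤ 23 := by
    rintro n ⟨t, -, hli⟩
    have := hli.fintype_card_le_finrank
    simpa using this
  obtain ⟨n, ⟨t, ht, hli⟩, hn⟩ := exists_last 22 h0 fun n hn => by
    have := hrk n hn
    omega
  have htH : ∀ i, H.IsHodge (t i) := fun i => hS _ (ht i)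
  -- elements of `S`
  have h1 : ∀ s ∈ insert H.h S, Rep H t s := by
    intro s hs
    rcases hs with rfl | hs
    · exact Rep.h
    have hdep : ¬ LinearIndependent ℤ
        (Fin.cons H.h (Fin.cons s t) : Fin (n + 1 + 1) → Fin 23 → ℤ) := by
      intro h
      refine hn ⟨Fin.cons s t, fun i => ?_, h⟩
      refine Fin.cases ?_ (fun j => ?_) i
      · exact hs
      · exact ht j
    rw [Fintype.not_linearIndependent_iff] at hdep
    obtain ⟨g, hg, i0, hi0⟩ := hdep
    rw [Fin.sum_univ_succ, Fin.sum_univ_succ] at hg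
    simp only [Fin.cons_zero, Fin.cons_succ] at hg
    have hg1 : g (Fin.succ 0) ≠ 0 := by
      intro h
      rw [h, zero_smul, zero_add] at hg
      have hz := Fintype.linearIndependent_iff.1 hli
        (Fin.cons (g 0) fun j => g j.succ.succ) (by
          rw [Fin.sum_univ_succ]
          simp only [Fin.cons_zero, Fin.cons_succ]
          exact hg)
      apply hi0
      refine Fin.cases ?_ (fun j => ?_) i0
      · exact hz 0
      · refine Fin.cases ?_ (fun k => ?_) j
        · exact h
        · exact hz k.succ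
    refine Rep.of_ne (m := -g (Fin.succ 0)) (c0 := g 0) (c := fun j => g j.succ.succ)
      (neg_ne_zero.2 hg1) ?_
    rw [neg_smul]
    have : g 0 • H.h + ∑ j, g j.succ.succ • t j = -(g (Fin.succ 0) • s) := by
      rw [eq_neg_iff_add_eq_zero, ← hg]
      abel
    exact this.symm
  have h2 : ∀ v ∈ AddSubgroup.closure (insert H.h S), Rep H t v := by
    intro v hv
    induction hv using AddSubgroup.closure_induction with
    | mem x hx => exact h1 x hx
    | zero => exact Rep.zero
    | add x y _ _ hx hy => exact hx.add hy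
    | neg x _ hx =>
      have := hx.smul (-1)
      rwa [neg_one_smul] at this
  have hrep : ∀ v, H.IsHodge v → Rep H t v := by
    intro v hv
    obtain ⟨m, hm, hmv⟩ := hspan v hv
    exact (h2 _ hmv).of_smul hm
  refine ⟨n, t, ht, hli, le_antisymm ?_ ?_, hrep⟩
  · -- the rank is at most `n + 1`
    rw [rank_eq]
    let b := Module.finBasis ℤ H.hodge
    have hr : ∀ i, ∃ m : ℤ, m ≠ 0 ∧ m • (b i : Fin 23 → ℤ) ∈ Submodule.span ℤ
        (Set.range (Fin.cons H.h t : Fin (n + 1) → Fin 23 → ℤ)) := by
      intro i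
      obtain ⟨m, c0, c, hm, e⟩ := hrep _ (b i).2
      refine ⟨m, hm.ne', ?_⟩
      rw [e]
      refine Submodule.add_mem _ (Submodule.smul_mem _ _ (Submodule.subset_span ⟨0, rfl⟩)) ?_
      exact Submodule.sum_mem _ fun j _ =>
        Submodule.smul_mem _ _ (Submodule.subset_span ⟨j.succ, rfl⟩)
    choose m hm hmem using hr
    have hli2 : LinearIndependent ℤ (fun i : Fin (finrank ℤ H.hodge) =>
        (⟨m i • (b i : Fin 23 → ℤ), hmem i⟩ : Submodule.span ℤ
          (Set.range (Fin.cons H.h t : Fin (n + 1) → Fin 23 → ℤ)))) := by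
      refine LinearIndependent.of_comp (Submodule.subtype _) ?_
      rw [Fintype.linearIndependent_iff]
      intro g hg i
      have hb : LinearIndependent ℤ fun i => (b i : Fin 23 → ℤ) :=
        b.linearIndependent.map' H.hodge.subtype (by rw [Submodule.ker_subtype])
      have := Fintype.linearIndependent_iff.1 hb (fun i => g i * m i) (by
        rw [← hg]
        refine Finset.sum_congr rfl fun i _ => ?_
        rw [mul_smul]
        rfl) i
      exact (mul_eq_zero.1 this).resolve_right (hm i)
    have h3 := hli2.fintype_card_le_finrank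
    rw [Fintype.card_fin] at h3
    have h4 := finrank_range_le_card (R := ℤ) (Fin.cons H.h t : Fin (n + 1) → Fin 23 → ℤ)
    rw [Fintype.card_fin] at h4
    exact h3.trans h4
  · have hmem : ∀ i : Fin (n + 1), (Fin.cons H.h t : Fin (n + 1) → Fin 23 → ℤ) i ∈
        Submodule.span ℤ {v | H.IsHodge v} := by
      intro i
      refine Submodule.subset_span ?_
      refine Fin.cases ?_ (fun j => ?_) i
      · exact hH.h_hodge
      · exact htH j
    have hli' : LinearIndependent ℤ (fun i : Fin (n + 1) =>
        (⟨(Fin.cons H.h t : Fin (n + 1) → Fin 23 → ℤ) i, hmem i⟩ :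
          Submodule.span ℤ {v | H.IsHodge v})) := by
      refine LinearIndependent.of_comp (Submodule.subtype _) ?_
      exact hli
    have := hli'.fintype_card_le_finrank
    simpa [H4.rank] using this

/-- twelve of at least twelve independent classes -/
theorem Ctx.many (c : Ctx H) {n : ℕ} (hn : 12 ≤ n) {t : Fin n → Fin 23 → ℤ}
    (ht : ∀ i, H.IsPl (t i) ∨ Scroll H (t i))
    (hli : LinearIndependent ℤ (Fin.cons H.h t : Fin (n + 1) → Fin 23 → ℤ)) : False := by
  refine c.twelve (t := fun i => t (Fin.castLE hn i)) (fun i => ht _) ?_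
  have e : (Fin.cons H.h (fun i => t (Fin.castLE hn i)) : Fin 13 → Fin 23 → ℤ) =
      (Fin.cons H.h t : Fin (n + 1) → Fin 23 → ℤ) ∘ Fin.castLE (by omega : 12 + 1 ≤ n + 1) := by
    funext i
    refine Fin.cases ?_ (fun j => ?_) i
    · rfl
    · rfl
  rw [e]
  exact hli.comp _ (Fin.castLE_injective _)

/-- **A plane, and planes and scroll classes span.** -/
theorem planes_scrolls_span_all (hL : IsLattice H)
    (hP : Nonempty X.Plane) (hspan : SpansBy H {x | H.IsPl x ∨ Scroll H x}) :
    Good H ∨ ∀ v, H.IsHodge v → 4 ∣ H.disc v := by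
  by_cases hbad : Good H
  · exact Or.inl hbad
  have c : Ctx H := ctx_of hL hbad
  have hH := c.hH
  have hSH : ∀ x ∈ {x | H.IsPl x ∨ Scroll H x}, H.IsHodge x := by
    rintro x (h | h)
    · exact h.1
    · exact h.1
  obtain ⟨n, t, ht, hli, hnr, -⟩ := exists_basis' hH hSH hspan
  have hn : n < 12 := by
    by_contra hcon
    exact c.many (not_lt.1 hcon) ht hli
  exact planes_scrolls_span hL hP hspan (by omega)

/-- **Scroll classes span.** -/
theorem scrolls_span_all (hL : IsLattice H) {t0 : Fin 5 → Fin 23 → ℤ}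
    (ht0 : Pairs H t0) (hspan : SpansBy H {x | Scroll H x}) (hr : H.rank ≠ 11 ∧ H.rank ≠ 12) :
    Good H ∨ (∀ v, H.IsHodge v → 4 ∣ H.disc v) ∨
      ∀ v, H.IsHodge v → H.disc v % 18 = 0 ∨ H.disc v % 18 = 12 := by
  by_cases hbad : Good H
  · exact Or.inl hbad
  have c : Ctx H := ctx_of hL hbad
  have hH := c.hH
  obtain ⟨n, t, ht, hli, hnr, -⟩ := exists_basis' hH (fun x hx => hx.1) hspan
  have hn : n < 12 := by
    by_contra hcon
    exact c.many (not_lt.1 hcon) (fun i => Or.inr (ht i)) hli
  exact scrolls_span hL ht0 hspan (by omega)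

end Pool.Agent.Run7.h971.SC
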