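import Pool.Agent.Run7.h971.SC.Span3

/-!
# Scroll classes which span the rational Hodge classes: thirteen pairs
-/

set_option autoImplicit false

namespace Pool.Agent.Run7.h971.SC

open Finset Module Pool.Agent.Y95.Q Pool.Agent.Y95.Q.H4

variable {X : CubicFourfold} {H : H4 X}

namespace Ctx

/-- even type, thirteen pairs: there is no class of norm ten -/
theorem ten_even13 (c : Ctx H) {t : Fin 13 → Fin 23 → ℤ} (ht : Pairs H t)
    (hev : ∀ s f, Scroll H s → Scroll H f → H.ip s f % 2 = 0) {v : Fin 23 → ℤ}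
    (hv : Prim H v) (h10 : H.ip v v = 10) : False := by
  classical
  have hH := c.hH
  have ht5 := ht.cast (m := 5) (by norm_num)
  have hpos : ∀ f, Scroll H f → H.ip v f ≠ 3 ∧ H.ip v f ≠ 4 ∧ H.ip v f ≠ 5 ∧ H.ip v f ≠ 7 := by
    intro f hf
    have hn : H.ip (v - f) (v - f) = 14 - 2 * H.ip v f := by
      rw [ip_sub_left, ip_sub_right, ip_sub_right, hH.comm f v, hf.2.2, h10]
      ring
    refine ⟨fun h => ?_, fun h => ?_, fun h => ?_, fun h => ?_⟩
    · have := c.ev_eight ht5 hev (hv.sub hf.prim) (by rw [hn, h]; norm_num) hf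
      rw [ip_sub_left, hf.2.2, h] at this
      norm_num at this
    · exact c.ev_six ht5 hev (hv.sub hf.prim) (by rw [hn, h]; norm_num)
    · have := hev _ _ (scroll_of (hv.sub hf.prim) (by rw [hn, h]; norm_num)) hf
      rw [ip_sub_left, hf.2.2, h] at this
      norm_num at this
    · have := c.eq_zero (hv.sub hf.prim).1 (by rw [hn, h]; norm_num)
      rw [sub_eq_zero] at this
      rw [this, hf.2.2] at h10
      norm_num at h10
  have vals : ∀ f, Scroll H f → H.ip v f = 1 ∨ H.ip v f = -1 ∨ H.ip v f = 2 ∨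
      H.ip v f = -2 := by
    intro f hf
    have k1 := c.n2 hv hf.prim 1 (-1)
    have k2 := c.n2 hv hf.prim 1 1
    rw [hf.2.2, h10] at k1 k2
    have p1 := hpos f hf
    have p2 := hpos (-f) hf.neg
    rw [ip_neg_right] at p2
    omega
  have one : ∀ f g, Scroll H f → Scroll H g → f ≠ g → H.ip v f = 1 → H.ip v g = 1 →
      H.ip f g = -2 := by
    intro f g hf hg hne h1 h2
    have hne' : f ≠ -g := by
      rintro rfl
      rw [ip_neg_right] at h1
      omega
    have b := c.bound hf hg hne hne'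
    have e := hev f g hf hg
    have k1 := c.n3 hv hf.prim hg.prim 1 (-1) (-1) rfl
    rw [h10, hf.2.2, hg.2.2, h1, h2] at k1
    have k2 : H.ip f g ≠ 2 := by
      intro h
      have hs : Scroll H (f - g) := scroll_of (hf.prim.sub hg.prim) (by
        rw [ip_sub_left, ip_sub_right, ip_sub_right, hH.comm g f, hf.2.2, hg.2.2, h]
        norm_num)
      have := vals _ hs
      rw [ip_sub_right, h1, h2] at this
      omega
    omega
  have two : ∀ f g, Scroll H f → Scroll H g → f ≠ g → H.ip v f = 2 → H.ip v g = 2 →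
      H.ip f g = 0 := by
    intro f g hf hg hne h1 h2
    have hne' : f ≠ -g := by
      rintro rfl
      rw [ip_neg_right] at h1
      omega
    have b := c.bound hf hg hne hne'
    have e := hev f g hf hg
    have k2 : H.ip f g ≠ 2 := by
      intro h
      have hs : Scroll H (f - g) := scroll_of (hf.prim.sub hg.prim) (by
        rw [ip_sub_left, ip_sub_right, ip_sub_right, hH.comm g f, hf.2.2, hg.2.2, h]
        norm_num)
      have := vals _ hs
      rw [ip_sub_right, h1, h2] at this
      omega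
    have k3 : H.ip f g ≠ -2 := by
      intro h
      have hs : Scroll H (f + g) := scroll_of (hf.prim.add hg.prim) (by
        rw [ip_add_left, ip_add_right, ip_add_right, hH.comm g f, hf.2.2, hg.2.2, h]
        norm_num)
      have := vals _ hs
      rw [ip_add_right, h1, h2] at this
      omega
    omega
  have hex : ∀ i, ∃ s, Scroll H s ∧ (s = t i ∨ s = -t i) ∧ (H.ip v s = 1 ∨ H.ip v s = 2) := by
    intro i
    rcases vals _ (ht.1 i) with h | h | h | h
    · exact ⟨t i, ht.1 i, Or.inl rfl, Or.inl h⟩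
    · exact ⟨-t i, (ht.1 i).neg, Or.inr rfl, Or.inl (by rw [ip_neg_right, h, neg_neg])⟩
    · exact ⟨t i, ht.1 i, Or.inl rfl, Or.inr h⟩
    · exact ⟨-t i, (ht.1 i).neg, Or.inr rfl, Or.inr (by rw [ip_neg_right, h, neg_neg])⟩
  choose s hsS hst hval using hex
  have sinj : ∀ i j, i ≠ j → s i ≠ s j := by
    intro i j hij h
    obtain ⟨p1, p2⟩ := ht.2 i j hij
    rcases hst i with h1 | h1 <;> rcases hst j with h2 | h2 <;> rw [h1, h2] at h
    · exact p1 h
    · exact p2 h
    · exact p2 (by rw [← h, neg_neg])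
    · exact p1 (neg_injective h)
  have no3 : ∀ i j k, i ≠ j → i ≠ k → j ≠ k → H.ip v (s i) = 1 → H.ip v (s j) = 1 →
      H.ip v (s k) = 1 → False := by
    intro i j k hij hik hjk h1 h2 h3
    have e1 := one _ _ (hsS i) (hsS j) (sinj i j hij) h1 h2
    have e2 := one _ _ (hsS i) (hsS k) (sinj i k hik) h1 h3
    have e3 := one _ _ (hsS j) (hsS k) (sinj j k hjk) h2 h3
    have := c.eq_zero (u := s i + s j + s k)
      (H.isHodge_add (H.isHodge_add (hsS i).1 (hsS j).1) (hsS k).1) (by
        simp only [ip_add_left, ip_add_right, hH.comm (s j) (s i), hH.comm (s k) (s i),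
          hH.comm (s k) (s j), (hsS i).2.2, (hsS j).2.2, (hsS k).2.2, e1, e2, e3]
        norm_num)
    have h4 : H.ip v (s i + s j + s k) = 3 := by
      rw [ip_add_right, ip_add_right, h1, h2, h3]
      norm_num
    rw [this, ip_zero_right] at h4
    norm_num at h4
  have h1 : (univ.filter fun i : Fin 13 => ¬ H.ip v (s i) = 2).card ≤ 2 := by
    by_contra hcon
    push Not at hcon
    obtain ⟨a, ha, b, hb, d, hd, hab, had, hbd⟩ := Finset.two_lt_card.1 hcon
    rw [mem_filter] at ha hb hd
    exact no3 a b d hab had hbd ((hval a).resolve_right ha.2) ((hval b).resolve_right hb.2)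
      ((hval d).resolve_right hd.2)
  have h2 := Finset.card_filter_add_card_filter_not (s := (univ : Finset (Fin 13)))
    (fun i => H.ip v (s i) = 2)
  rw [card_univ, Fintype.card_fin] at h2
  have hF : ∀ x ∈ (univ.filter fun i => H.ip v (s i) = 2).image s,
      Scroll H x ∧ H.ip v x = 2 := by
    intro x hx
    obtain ⟨i, hi, rfl⟩ := mem_image.1 hx
    rw [mem_filter] at hi
    exact ⟨hsS i, hi.2⟩
  have := c.bessel hv h10 _ hF fun x hx y hy hxy =>
    two x y (hF x hx).1 (hF y hy).1 hxy (hF x hx).2 (hF y hy).2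
  rw [card_image_of_injOn (by
    intro a _ b _ hab
    by_contra hne
    exact sinj a b hne hab)] at this
  omega

end Ctx

/-- **Scroll classes span, thirteen pairs.** -/
theorem scrolls_span_13 (hL : IsLattice H) {t0 : Fin 13 → Fin 23 → ℤ}
    (ht0 : Pairs H t0) (hspan : SpansBy H {x | Scroll H x}) :
    Good H ∨ (∀ v, H.IsHodge v → 4 ∣ H.disc v) ∨
      ∀ v, H.IsHodge v → H.disc v % 18 = 0 ∨ H.disc v % 18 = 12 := by
  by_cases hbad : Good H
  · exact Or.inl hbad
  have c : Ctx H := ctx_of hL hbad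
  have hH := c.hH
  have ht5 := ht0.cast (m := 5) (by norm_num)
  by_cases hr : H.rank ≤ 10
  · exact scrolls_span hL ht5 hspan hr
  right
  by_cases hP : Nonempty X.Plane
  · left
    refine (planes_scrolls_span_all hL hP (fun v hv => ?_)).resolve_left hbad
    obtain ⟨m, hm, hmv⟩ := hspan v hv
    exact ⟨m, hm, AddSubgroup.closure_mono (Set.insert_subset_insert fun x hx => Or.inr hx) hmv⟩
  have hnp : ∀ P, ¬ H.IsPl P := fun P h => by
    obtain ⟨P', -⟩ := (hH.cl_range P).2 h
    exact hP ⟨P'⟩
  obtain ⟨n, t, ht, hli, hnr, hrep⟩ := exists_basis' hH (fun x hx => hx.1) hspan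
  have hn12 : n < 12 := by
    by_contra hcon
    exact c.many (not_lt.1 hcon) (fun i => Or.inr (ht i)) hli
  have hli' : LinearIndependent ℤ t := hli.comp Fin.succ (Fin.succ_injective _)
  have htH : ∀ i, H.IsHodge (t i) := fun i => (ht i).1
  have hn : (n : ℤ) ≤ 11 := by
    have : n ≤ 11 := by omega
    exact_mod_cast this
  have red : ∀ y, H.IsHodge y → ∃ k : Fin n → ℤ, H.disc (y - ∑ i, k i • t i) < 36 := by
    intro y hy
    obtain ⟨k, hk⟩ := reduce hH htH (hrep y hy)
    rw [Finset.sum_congr rfl fun i _ => disc_scroll hH (ht i)] at hk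
    simp only [sum_const, card_univ, Fintype.card_fin, nsmul_eq_mul] at hk
    exact ⟨k, by omega⟩
  have hwH : ∀ y, H.IsHodge y → ∀ k : Fin n → ℤ, H.IsHodge (y - ∑ i, k i • t i) :=
    fun y hy k => H.isHodge_sub hy (H.isHodge_sum _ _ fun i _ => H.isHodge_smul _ (htH i))
  rcases c.split with hev | ⟨a0, b0, ha0, hb0, hab0⟩
  · left
    have h2 : Two H := by
      intro u hu h
      by_contra hcon
      have e0 := c.d hu
      have e1 : H.disc u = 18 ∨ H.disc u = 30 := by omega
      obtain ⟨k, g, e, hg, hgn⟩ := norm0 c.hH hu (by omega)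
      rcases e1 with e1 | e1
      · exact c.ev_six ht5 hev hg (by omega)
      · exact c.ten_even13 ht0 hev hg (by omega)
    have all : ∀ s y, Scroll H s → H.IsHodge y → Bf H s y % 2 = 0 := by
      intro s y hs hy
      obtain ⟨k, hk⟩ := red y hy
      refine Bf_of_reduce hH rfl (c.two_scroll h2 hs (hwH y hy k) (by omega)).2 fun i => ?_
      rw [Bf_scroll hs]
      have := hev s (t i) hs (ht i)
      omega
    have hrad : ∀ i, Rad H (t i) := fun i =>
      ⟨by rw [disc_scroll hH (ht i)]; norm_num, fun y hy => all _ y (ht i) hy⟩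
    intro v hv
    obtain ⟨k, hk⟩ := red v hv
    have h4 : 4 ∣ H.disc (v - ∑ i, k i • t i) := by
      have h1 := c.d (hwH v hv k)
      have h3 := h2 _ (hwH v hv k)
      omega
    have := disc_mod_of_rad hH (hwH v hv k) (Rad.sum hH k hrad htH) h4
    rwa [sub_add_cancel] at this
  · right
    have o : Odd3 H := ⟨c, hnp, ⟨_, ht5⟩, ⟨a0, b0, ha0, hb0, hab0⟩⟩
    obtain ⟨a, ha, -, h3⟩ := o.t3'
    have hn3 : 3 ≤ n := by omega
    intro v hv
    obtain ⟨k, hk⟩ := red v hv
    have q1 := o.Q_small ha h3 hn3 ht hli' (hwH v hv k) (hrep _ (hwH v hv k)) hk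
    have q2 := o.Q_add_sum h3 ht k q1 univ
    rw [sub_add_cancel] at q2
    obtain ⟨⟨x, hx⟩, -, ⟨y, hy⟩⟩ := q2
    have hd : H.disc v = 3 * (3 * y + H.ip v a * H.ip v a) - 9 * (x * x) := by
      unfold disc
      rw [hH.comm H.h v, hx]
      linear_combination 3 * hy
    have he := Pool.Agent.X328.CF.disc_even hH v
    have e3 : (H.ip v a * H.ip v a) % 3 = 0 ∨ (H.ip v a * H.ip v a) % 3 = 1 := by
      generalize H.ip v a = x
      have : x % 3 = 0 ∨ x % 3 = 1 ∨ x % 3 = 2 := by omega
      rcases this with h | h | h <;> simp [Int.mul_emod, h]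
    generalize H.ip v a * H.ip v a = z at *
    generalize x * x = u at *
    omega

end Pool.Agent.Run7.h971.SC
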